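import Pool.Agent.Helper45.AM.Defs

/-!
# Project AM: elementary lemmas on the sets `Low`, `Lam`, `LamT`, and on `ε`.
(Lemmas on degrees: `Pool.Agent.Helper15.RA.Basic`.)
-/

set_option autoImplicit false

open LaurentPolynomial Pool.Agent.Helper15.RA

noncomputable section

namespace Pool.Agent.Helper45.AM

/-! ## `Low`, `Lam`, `LamT` -/

namespace AC

variable {S W H : Type} [Group W] [Ring H] [Algebra ℤ[T;T⁻¹] H] {X : AC S W H}

section

variable {M n n' : ℕ} {k k' : ℤ} {Y Z : H} {p : ℤ[T;T⁻¹]}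

theorem Idl_mono (hn : n ≤ n') : X.Idl M n ≤ X.Idl M n' := by
  refine Submodule.span_mono ?_
  rintro Z ⟨x, g, y, h1, h2, h3, h4⟩
  exact ⟨x, g, y, h1, h2, h3.trans hn, h4⟩

/-- the generators of `I_M^(≤ n)` -/
theorem B_mem_Idl {x g y : W} (h1 : X.Adm x g y) (h2 : M < X.α g) (h3 : X.nn x g y ≤ n) :
    X.B x g y ∈ X.Idl M n := Submodule.subset_span ⟨x, g, y, h1, h2, h3, rfl⟩

theorem Low.add (hY : X.Low M n k Y) (hZ : X.Low M n k Z) : X.Low M n k (Y + Z) := by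
  intro w
  rw [map_add, Finsupp.add_apply]
  refine ⟨(hY w).1.add (hZ w).1, fun h => ?_⟩
  by_cases h1 : X.D.t.repr Y w = 0
  · exact (hZ w).2 fun h2 => h (by rw [h1, h2, add_zero])
  · exact (hY w).2 h1

theorem Low.neg (hY : X.Low M n k Y) : X.Low M n k (-Y) := by
  intro w
  rw [map_neg, Finsupp.neg_apply]
  exact ⟨(hY w).1.neg, fun h => (hY w).2 (neg_ne_zero.1 h)⟩

theorem Low.zero (M n : ℕ) (k : ℤ) : X.Low M n k 0 := by
  intro w
  rw [map_zero, Finsupp.zero_apply]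
  exact ⟨DegLE.zero k, fun h => absurd rfl h⟩

theorem Low.smul (hp : DegLE k' p) (hY : X.Low M n k Y) : X.Low M n (k' + k) (p • Y) := by
  intro w
  rw [map_smul, Finsupp.smul_apply, smul_eq_mul]
  exact ⟨hp.mul (hY w).1, fun h => (hY w).2 (right_ne_zero_of_mul h)⟩

theorem Low.mono (hY : X.Low M n k Y) (hn : n ≤ n') (hk : k ≤ k') : X.Low M n' k' Y := fun w =>
  ⟨(hY w).1.mono hk, fun h => ⟨((hY w).2 h).1, ((hY w).2 h).2.trans hn⟩⟩

theorem Lam.add (hY : X.Lam M n k Y) (hZ : X.Lam M n k Z) : X.Lam M n k (Y + Z) := by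
  obtain ⟨y, h1, h2⟩ := hY
  obtain ⟨z, h3, h4⟩ := hZ
  refine ⟨y + z, h1.add h3, ?_⟩
  rw [add_sub_add_comm]
  exact add_mem h2 h4

theorem Lam.neg (hY : X.Lam M n k Y) : X.Lam M n k (-Y) := by
  obtain ⟨y, h1, h2⟩ := hY
  refine ⟨-y, h1.neg, ?_⟩
  rw [show -Y - -y = -(Y - y) by abel]
  exact neg_mem h2

theorem Lam.sub (hY : X.Lam M n k Y) (hZ : X.Lam M n k Z) : X.Lam M n k (Y - Z) := by
  rw [sub_eq_add_neg]
  exact hY.add hZ.neg

theorem Lam.zero (M n : ℕ) (k : ℤ) : X.Lam M n k 0 := ⟨0, Low.zero M n k, by simp⟩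

theorem Lam.smul (hp : DegLE k' p) (hY : X.Lam M n k Y) : X.Lam M n (k' + k) (p • Y) := by
  obtain ⟨y, h1, h2⟩ := hY
  refine ⟨p • y, h1.smul hp, ?_⟩
  rw [← smul_sub]
  exact Submodule.smul_mem _ _ h2

theorem Lam.mono (hY : X.Lam M n k Y) (hn : n ≤ n') (hk : k ≤ k') : X.Lam M n' k' Y := by
  obtain ⟨y, h1, h2⟩ := hY
  exact ⟨y, h1.mono hn hk, Idl_mono hn h2⟩

theorem Lam.sum {ι : Type*} {s : Finset ι} {f : ι → H} (h : ∀ i ∈ s, X.Lam M n k (f i)) :
    X.Lam M n k (∑ i ∈ s, f i) := by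
  classical
  induction s using Finset.induction_on with
  | empty => exact Lam.zero M n k
  | insert i s hi ih =>
    rw [Finset.sum_insert hi]
    exact (h i (Finset.mem_insert_self i s)).add (ih fun j hj => h j (Finset.mem_insert_of_mem hj))

theorem Lam.of_idl (h : Y ∈ X.Idl M n) : X.Lam M n k Y := ⟨0, Low.zero M n k, by rwa [sub_zero]⟩

theorem Lam.of_low (h : X.Low M n k Y) : X.Lam M n k Y := ⟨Y, h, by simp⟩

theorem LamT.lam (h : X.LamT M n k Y) : X.Lam M n k Y := by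
  obtain ⟨y, h1, h2, _⟩ := h
  exact ⟨y, h1, h2⟩

theorem LamT.add (hY : X.LamT M n k Y) (hZ : X.LamT M n k Z) : X.LamT M n k (Y + Z) := by
  obtain ⟨y, h1, h2, h5⟩ := hY
  obtain ⟨z, h3, h4, h6⟩ := hZ
  refine ⟨y + z, h1.add h3, ?_, ?_⟩
  · rw [add_sub_add_comm]
    exact add_mem h2 h4
  · rw [add_sub_add_comm, map_add, Finsupp.add_apply]
    exact h5.add h6

theorem LamT.neg (hY : X.LamT M n k Y) : X.LamT M n k (-Y) := by
  obtain ⟨y, h1, h2, h3⟩ := hY
  refine ⟨-y, h1.neg, ?_, ?_⟩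
  · rw [show -Y - -y = -(Y - y) by abel]
    exact neg_mem h2
  · rw [show -Y - -y = -(Y - y) by abel, map_neg, Finsupp.neg_apply]
    exact h3.neg

theorem LamT.sub (hY : X.LamT M n k Y) (hZ : X.LamT M n k Z) : X.LamT M n k (Y - Z) := by
  rw [sub_eq_add_neg]
  exact hY.add hZ.neg

theorem LamT.zero (M n : ℕ) (k : ℤ) : X.LamT M n k 0 :=
  ⟨0, Low.zero M n k, by simp, by simpa using DegLE.zero _⟩

theorem LamT.smul (hp : DegLE k' p) (hY : X.LamT M n k Y) : X.LamT M n (k' + k) (p • Y) := by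
  obtain ⟨y, h1, h2, h3⟩ := hY
  refine ⟨p • y, h1.smul hp, ?_, ?_⟩
  · rw [← smul_sub]
    exact Submodule.smul_mem _ _ h2
  · rw [← smul_sub, map_smul, Finsupp.smul_apply, smul_eq_mul]
    exact hp.mul_le h3 (by omega)

theorem LamT.mono (hY : X.LamT M n k Y) (hn : n ≤ n') (hk : k ≤ k') : X.LamT M n' k' Y := by
  obtain ⟨y, h1, h2, h3⟩ := hY
  exact ⟨y, h1.mono hn hk, Idl_mono hn h2, h3.mono (by omega)⟩

theorem LamT.smul_le (hp : DegLE k' p) (hY : X.LamT M n k Y) (hn : n ≤ n') {m : ℤ} (h : k' + k ≤ m) :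
    X.LamT M n' m (p • Y) := (hY.smul hp).mono hn h

theorem Lam.smul_le (hp : DegLE k' p) (hY : X.Lam M n k Y) (hn : n ≤ n') {m : ℤ} (h : k' + k ≤ m) :
    X.Lam M n' m (p • Y) := (hY.smul hp).mono hn h

theorem LamT.sum {ι : Type*} {s : Finset ι} {f : ι → H} (h : ∀ i ∈ s, X.LamT M n k (f i)) :
    X.LamT M n k (∑ i ∈ s, f i) := by
  classical
  induction s using Finset.induction_on with
  | empty => exact LamT.zero M n k
  | insert i s hi ih =>
    rw [Finset.sum_insert hi]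
    exact (h i (Finset.mem_insert_self i s)).add (ih fun j hj => h j (Finset.mem_insert_of_mem hj))

/-- elements of `I_M` with controlled `T_1`-coefficient -/
theorem LamT.of_idl (h : Y ∈ X.Idl M n) (h1 : DegLE (k - M) (X.D.t.repr Y 1)) : X.LamT M n k Y :=
  ⟨0, Low.zero M n k, by rwa [sub_zero], by rwa [sub_zero]⟩

theorem LamT.of_low (h : X.Low M n k Y) : X.LamT M n k Y :=
  ⟨Y, h, by simp, by simpa using DegLE.zero _⟩

end

section

variable (X : AC S W H)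

theorem eps_nonneg (M : ℕ) (x g y : W) : 0 ≤ X.eps M x g y := by
  unfold eps
  split_ifs <;> decide

theorem eps_le_one (M : ℕ) (x g y : W) : X.eps M x g y ≤ 1 := by
  unfold eps
  split_ifs <;> decide

/-- to prove `ε ≤ ε'` -/
theorem eps_le {M : ℕ} {x x' y y' g g' : W}
    (h1 : X.Ge M (x' * g') → X.Ge M (x * g)) (h2 : X.Ge M (g' * y') → X.Ge M (g * y)) :
    X.eps M x g y ≤ X.eps M x' g' y' := by
  unfold eps
  split_ifs with h3 h4
  · exact le_rfl
  · push Not at h4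
    rcases h3 with h3 | h3
    · exact absurd (h1 h4.1) h3
    · exact absurd (h2 h4.2) h3
  · decide
  · exact le_rfl

theorem eps_eq_zero {M : ℕ} {x g y : W} (h1 : X.Ge M (x * g)) (h2 : X.Ge M (g * y)) : X.eps M x g y = 0 := by
  unfold eps
  rw [if_neg]
  rintro (h | h)
  · exact h h1
  · exact h h2

end

end AC

end Pool.Agent.Helper45.AM
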