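import Pool.Agent.Helper45.AM.GoalsD

/-!
# Project AM (MP_cc6379_al): goals, part E. Conclusions: `W` satisfies (B), P1, P4, P8 and (U).

Notation as in parts A-D. The statements proved in parts C and D are hypotheses here: `∀ n, X.SA n`, `∀ n, X.SB n`, `∀ M n, X.NN M n`,
`∀ M n, X.CC M n`. `M` is a level (a natural number).
-/

set_option autoImplicit false

open LaurentPolynomial Pool.Agent.Helper15.RA

noncomputable section

namespace Pool.Agent.Helper45.AM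

/-- PACKET AM-E1 (2 h). From `H_2`, `A_B`, `B_5`, `D_1`, `D_3`. Elements of `I_M` and of `Lam` in the basis `c`.

PROOF. (1) Let `Z ∈ Idl M n`, `Z = ∑ b_z c_z`. Subtract `∑_(Ge (M+1) z) b_z c_z`, which is in `Idl M n'` for some `n'` (`CC`; finite sum, `n'` = maximum of the `sl z`): so `Z' := ∑_(¬ Ge (M+1) z) b_z c_z ∈ Idl M n''`. Suppose some `b_z ≠ 0` with `¬ Ge (M+1) z`, and let `w` be such a `z` of maximal length. For each `z`: `c_z = T_z + ∑_(ℓ(y) < ℓ(z)) p_y T_y`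
(`H_2`) and `T_y = l_y + Idl M (sl y)` (`D_3`) with `l_y` supported in `¬ Ge (M+1)`, lengths `≤ ℓ(y)`. So `Z'' := ∑ b_z (T_z + ∑ p_y l_y) ∈ Idl M n'''` for some `n'''`, supported in `¬ Ge (M+1)`; `NN`: `Z'' = 0`. Its `T_w`-coordinate is `b_w` (the other `T_z` are not `T_w`, the `l_y` have lengths `< ℓ(z) ≤ ℓ(w)`). Contradiction. (2) `Z = l + ι`, `ι ∈ Idl M n`: the `c_z`-coordinate of `ι` is `0` by (1),
the `T`-coordinates of `l` have degree `≤ k`, so also its `c`-coordinates (`A_B`). -/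
def E_1 : Prop := ∀ (S W H : Type) [Group W] [Ring H] [Algebra ℤ[T;T⁻¹] H] (X : AC S W H),
  (∀ M n, X.NN M n) → (∀ M n, X.CC M n) → ∀ (M n : ℕ) (Z : H) (z : W), ¬ X.Ge (M + 1) z →
  (Z ∈ X.Idl M n → X.b.repr Z z = 0) ∧ ∀ k, X.Lam M n k Z → DegLE k (X.b.repr Z z)

/-- PACKET AM-E2 (1 h). From `A_B`, `B_5`, `D_2`, `E_1`. P4.

PROOF. `m = 0`: `Ge 0 z` always. `m = M + 1`: if `Ge (M+1) x` then `c_x ∈ Idl M (sl x)` (`CC`), so `c_x c_y ∈ Idl M n` for some `n` (`D_2` (2), `c_y` is a combination of `T_w`); if not `Ge (M+1) z` then `h x y z = X.b.repr (c_x c_y) z = 0` by `E_1`. Same for `y`. -/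
def E_2 : Prop := ∀ (S W H : Type) [Group W] [Ring H] [Algebra ℤ[T;T⁻¹] H] (X : AC S W H),
  (∀ M n, X.NN M n) → (∀ M n, X.CC M n) → ∀ (m : ℕ) (x y z : W), X.Ge m x ∨ X.Ge m y → X.h x y z ≠ 0 → X.Ge m z

/-- PACKET AM-E3 (2.5 h). From `G_P`, `A_B`, `A_S`, `A_K`, `A_L`, `A_J`, `B_1`, `B_5`, `B_7`, `E_1`. Upper bound and P8.

PROOF. `x = x₀ k₁`, `y = k₂ y₀`, `x₀ ∈ X_K`, `y₀ ∈ Y_K`, `k₁, k₂ ∈ W_K`. `A_K`, `A_L` (`P = K`): `c_x = T_(x₀) c_(k₁) + ∑ p T_(r.1) c_(r.2)`, `c_y = c_(k₂) T_(y₀) + ∑ p' c_(r'.1) T_(r'.2)`, `deg p, p' ≤ -1`. So `c_x c_y` is the sum of `p p' h_(k',k'',k) B x' k y'` over `x' ∈ X_K`, `k', k'', k ∈ W_K`, `y' ∈ Y_K` (`p = 1` resp. `p' = 1` for the leading terms), `deg h_(k',k'',k) ≤ α k`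
(`X.pgK.deg`), `Adm x' k y'`. By `SB` `B x' k y' ∈ LamT M _ (M - α k - eps)`, so every term is in `Lam M _ (M + deg p + deg p' - eps)` and the sum in `Lam M n M` for some `n`: `deg h x y z ≤ M` by `E_1`. Suppose `¬ Ge M x` (or `¬ Ge M y`). Then every term is in `Lam M _ (M - 1)`: clear if `deg p ≤ -1` or `deg p' ≤ -1`. Leading term: `h_(k₁,k₂,k) B x₀ k y₀`:
if the coefficient of `v^(α k)` in `h_(k₁,k₂,k)` is `0`: clear. Otherwise `k ~_R k₁`, `k ~_L k₂` in `W_K` (`A_J`), so `Ge M (x₀ k) → Ge M (x₀ k₁) = Ge M x` (`B_7` (2)), `Ge M (k y₀) → Ge M y` (`B_7` (4)): so `¬ Ge M (x₀ k)` or `¬ Ge M (k y₀)`, `eps M x₀ k y₀ = 1`, and the term is in `Lam M _ (M - 1)`. So `deg h x y z ≤ M - 1` by `E_1`. -/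
def E_3 : Prop := ∀ (S W H : Type) [Group W] [Ring H] [Algebra ℤ[T;T⁻¹] H] (X : AC S W H),
  (∀ n, X.SB n) → (∀ M n, X.NN M n) → (∀ M n, X.CC M n) → ∀ (M : ℕ) (x y z : W), ¬ X.Ge (M + 1) z →
    DegLE M (X.h x y z) ∧ ((X.h x y z).coeff M ≠ 0 → X.Ge M x ∧ X.Ge M y)

/-- PACKET AM-E4 (2.5 h). From `G_P`, `A_B`, `A_S`, `A_K`, `A_L`, `A_P`, `B_1`, `B_5`, `E_1`. The coefficient of `v^M` in `h (x g₁) (g₂ y) u`.

PROOF. `A_K`, `A_L` with `P = F b`: `c_(x g₁) = T_x c_(g₁) + ∑ p T_(r.1) c_(r.2)`, `c_(g₂ y) = c_(g₂) T_y + ∑ p' c_(r'.1) T_(r'.2)`, `deg p, p' ≤ -1`, `r.1 ∈ X_b`, `r'.2 ∈ Y_b`. `c_(x g₁) c_(g₂ y)` is the sum of the `p p' h_(g',g'',g''') B x' g''' y'` (`p, p'` possibly `1`), `g', g'', g''' ∈ W_b`, `deg h ≤ α g'''` (`(X.pg b).deg`), `B x' g''' y' ∈ LamT M _ (M - α g''' - eps)` (`SB`). All terms except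
those with `p = p' = 1` are in `Lam M _ (M - 1)`, so (`E_1`) their `c_u`-coordinates have degree `≤ M - 1`. The rest is `∑_(g') h g₁ g₂ g' B x g' y`. `h g₁ g₂ g' = γ_(g') v^(α g') + (deg ≤ α g' - 1)`, and the second part times `B x g' y` is in `Lam M _ (M - 1)` too. So `(h (x g₁) (g₂ y) u).coeff M = ∑_(g') γ_(g') (X.b.repr (B x g' y) u).coeff (M - α g')`, `γ_(g') = (h g₁ g₂ g').coeff (α g')`. If
`γ_(g') ≠ 0` then `α g' = α g₁ = M` (`(X.pg b).p8`). -/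
def E_4 : Prop := ∀ (S W H : Type) [Group W] [Ring H] [Algebra ℤ[T;T⁻¹] H] (X : AC S W H),
  (∀ n, X.SB n) → (∀ M n, X.NN M n) → (∀ M n, X.CC M n) → ∀ (M : ℕ) (b : Bool) (x g₁ g₂ y u : W),
    XR X.cs (X.F b) x → g₁ ∈ par X.cs (X.F b) → g₂ ∈ par X.cs (X.F b) → XL X.cs (X.F b) y → X.α g₁ = M →
    ¬ X.Ge (M + 1) u →
    (X.h (x * g₁) (g₂ * y) u).coeff M =
      (X.h g₁ g₂).sum fun g' p => p.coeff (X.α g') * (X.b.repr (X.B x g' y) u).coeff 0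

/-- PACKET AM-E5 (1 h). From `H_2`, `A_B`, `A_S`, `B_1`, `B_2`, `B_3`, `C_2`, `D_1`. Leading coordinates in the basis `c`.

PROOF. `n := sl x + 1 + sl y`, `g' ∈ W_b`. If `g' ∈ W_K`: `B x g' y` is supported in `sl ≤ nn = n - 1` (`D_1`, `Adm x g' y`), also in the basis `c` (`D_1`): the coordinates at `u` with `sl u ≥ n` are `0`. If `g' ∉ W_K`: `C_2`: `B x g' y = T_(x g' y) + ∑ q_u T_u + (sl ≤ n - 1)`, `deg q_u ≤ -1`. The `c_u`-coordinate of `T_(x g' y)` is `1` for `u = x g' y`, of degree `≤ -1` otherwise, and the `c`-coordinates of `∑ q_u T_u` have degree `≤ -1`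
(`A_B`). So for `sl u ≥ n` the coefficient of `v^0` of the `c_u`-coordinate is `1` if `u = x g' y` and `0` otherwise. (`x g' y = x g y` iff `g' = g`.) -/
def E_5 : Prop := ∀ (S W H : Type) [Group W] [Ring H] [Algebra ℤ[T;T⁻¹] H] (X : AC S W H) (b : Bool) (x g' y u : W),
  XR X.cs (X.F b) x → g' ∈ par X.cs (X.F b) → XL X.cs (X.F b) y → X.sl x + 1 + X.sl y ≤ X.sl u →
    (u = x * g' * y → (X.b.repr (X.B x g' y) u).coeff 0 = 1) ∧
    (u ≠ x * g' * y → (X.b.repr (X.B x g' y) u).coeff 0 = 0)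

/-- PACKET AM-E6 (2.5 h). From `G_P`, `A_S`, `A_P`, `A_J`, `B_1`, `B_2`, `B_3`, `B_5`, `B_7`, `E_4`, `E_5`. Lower bound, and (U) modulo fewer syllables.

PROOF. `Ge M z`, `¬ Ge (M+1) z`. By `B_5` (3): (i) `z ∈ W_K`, `M ≤ α z`, so `α z = M` (`B_5` (2)). Lower bound: `X.pgK.low`. `lam`: the last clause of `A_J` for `(K, α)`, `g = z`: `p.1 ~_R z` so `α p.1 = M` (`A_P`) and `Ge M p.1`, `¬ Ge (M+1) p.1` (`B_5` (2)). For `u ∈ W_K`, `¬ Ge (M+1) u`: `α u ≤ M`; `α u = M`: `A_J`; `α u < M`: `deg h p.1 p.2 u ≤ α u < M`. For `u ∉ W_K` `h p.1 p.2 u = 0` (`A_S`).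
(ii) `z = x g y`, type `b`, `M ≤ α g`; `α g = M` because `Ge (α g) z` (reduced, `B_2`, `B_5`). Lower bound: `(X.pg b).low` gives `g₁, g₂ ∈ W_b` with `(h g₁ g₂ g).coeff (α g) ≠ 0`, `α g₁ = α g = M` (`p8`). `E_4` with `u = z` and `E_5` (`z = x g' y` iff `g' = g`; `sl z = sl x + 1 + sl y`): `(h (x g₁) (g₂ y) z).coeff M = (h g₁ g₂ g).coeff (α g) ≠ 0`. `lam`: let `lam₀` be as in the last
clause of `A_J` for `(F b, α)`, `g`: pairs `p` with `p.1 ~_R g`, so `α p.1 = M`. `lam := lam₀.mapDomain (p ↦ (x p.1, p.2 y))` (injective). `Ge M (x p.1)` (`B_5`, last clause), and `Ge (M+1) (x p.1)` would give `Ge (M+1) (x g)` (`B_7` (1): `g ≤_R p.1`), so `Ge (M+1) z`: no. For `¬ Ge (M+1) u`: `∑ lam₀(p) (h (x p.1) (p.2 y) u).coeff M = ∑_(g') (∑ lam₀(p) (h p.1 p.2 g').coeff (α g')) (X.b.repr (B x g' y) u).coeff 0`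
`= (X.b.repr (B x g y) u).coeff 0` (`E_4`, `A_J`): `1` for `u = z`, `0` for `u ≠ z`, `sl z ≤ sl u` (`E_5`). -/
def E_6 : Prop := ∀ (S W H : Type) [Group W] [Ring H] [Algebra ℤ[T;T⁻¹] H] (X : AC S W H),
  (∀ n, X.SB n) → (∀ M n, X.NN M n) → (∀ M n, X.CC M n) → ∀ (M : ℕ) (z : W), X.Ge M z → ¬ X.Ge (M + 1) z →
    (∃ x y, (X.h x y z).coeff M ≠ 0) ∧
    ∃ lam : W × W →₀ ℤ, (∀ p ∈ lam.support, X.Ge M p.1 ∧ ¬ X.Ge (M + 1) p.1) ∧
      (lam.sum fun p m => m * (X.h p.1 p.2 z).coeff M) = 1 ∧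
      ∀ u, ¬ X.Ge (M + 1) u → u ≠ z → X.sl z ≤ X.sl u → (lam.sum fun p m => m * (X.h p.1 p.2 u).coeff M) = 0

/-- PACKET AM-E7 (1.5 h). (U) for `W`, by induction on the number of syllables.

PROOF. `a z = M` means `Ge M z ∧ ¬ Ge (M+1) z` (hypothesis `ha`). Claim: for every `z` there is `lam` with `∑ lam(p) (h p.1 p.2 u).coeff (a u) = δ_(u,z)` for all `u`. Strong induction on `sl z`. Let `M = a z`, `lam₀` as in the hypothesis `hE` for `z`. For any `u`: if `a u ≠ M` then `(h p.1 p.2 u).coeff (a u) = 0` for all `p` in the support, by `h8` (`a p.1 = M`: `ha`). If `a u = M`, the sum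
`ν_u := ∑ lam₀(p) (h p.1 p.2 u).coeff M` is `1` for `u = z`, `0` for `u ≠ z`, `sl z ≤ sl u`. The set of `u` with `ν_u ≠ 0` is finite (contained in the union of the supports of `h p.1 p.2`). Put `lam := lam₀ - ∑_(u : sl u < sl z, a u = M) ν_u lam_u` with `lam_u` from the induction hypothesis. -/
def E_7 : Prop := ∀ (W : Type) (h : W → W → W →₀ ℤ[T;T⁻¹]) (a sl : W → ℕ),
  (∀ x y z, (h x y z).coeff (a z) ≠ 0 → a x = a z) →
  (∀ z, ∃ lam : W × W →₀ ℤ, (∀ p ∈ lam.support, a p.1 = a z) ∧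
      (lam.sum fun p m => m * (h p.1 p.2 z).coeff (a z)) = 1 ∧
      ∀ u, a u = a z → u ≠ z → sl z ≤ sl u → (lam.sum fun p m => m * (h p.1 p.2 u).coeff (a z)) = 0) →
  ∀ g, ∃ lam : W × W →₀ ℤ, (lam.sum fun p m => m * (h p.1 p.2 g).coeff (a g)) = 1 ∧
    ∀ z, z ≠ g → (lam.sum fun p m => m * (h p.1 p.2 z).coeff (a z)) = 0

/-- The final goal of parts A-E: the amalgam satisfies everything. -/
def GM : Prop := ∀ (S W H : Type) [Group W] [Ring H] [Algebra ℤ[T;T⁻¹] H] (X : AC S W H),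
  ∃ a : W → ℕ, PG X.D X.h Set.univ a

end Pool.Agent.Helper45.AM
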