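import Pool.Agent.Helper45.AM.GoalsC

/-!
# Project AM (MP_cc6379_al): goals, part D. The sum of `N_M` (the span of the `T_w`, `a'(w) ≤ M`) and of the ideal `I_M` is direct.

Notation as in parts A-C. `Z` is supported in `sl ≤ n` means: `X.D.t.repr Z w ≠ 0 → X.sl w ≤ n`. `M` is a level (a natural number).
-/

set_option autoImplicit false

open LaurentPolynomial Pool.Agent.Helper15.RA

noncomputable section

namespace Pool.Agent.Helper45.AM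

section defs

variable {S W H : Type} [Group W] [Ring H] [Algebra ℤ[T;T⁻¹] H] (X : AC S W H)

/-- `c_u ∈ I_M^(≤ sl u)` if `a'(u) > M` and `sl u < n` -/
def AC.CC (M n : ℕ) : Prop := ∀ u, X.sl u < n → X.Ge (M + 1) u → X.D.c u ∈ X.Idl M (X.sl u)

/-- The span of the generators of `I_M^(≤ n)` with fewer than `n` syllables or at a position `< s + 1`. -/
def AC.LI (M n s : ℕ) : Submodule ℤ[T;T⁻¹] H :=
  Submodule.span ℤ[T;T⁻¹] {Z | ∃ x g y, X.Adm x g y ∧ M < X.α g ∧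
    (X.nn x g y < n ∨ (X.nn x g y ≤ n ∧ g ∉ par X.cs X.K ∧ X.sl x < s)) ∧ Z = X.B x g y}

/-- The chosen triples. -/
def AC.Ch (M : ℕ) (x g y : W) : Prop :=
  M < X.α g ∧ ((x = 1 ∧ y = 1 ∧ g ∈ par X.cs X.K) ∨ ∃ b, X.Tp b x g y ∧
    (x = 1 ∨ ∀ κ β, κ ∈ par X.cs X.K → XL X.cs X.K β → g = κ * β → ¬ X.Ge (M + 1) (x * κ)))

/-- `Z` can be approximated by linear combinations of chosen elements with at most `n` syllables. -/
def AC.Ap (M n : ℕ) (Z : H) : Prop :=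
  ∀ r : ℕ, ∃ Y ∈ Submodule.span ℤ[T;T⁻¹] {Z | ∃ x g y, X.Ch M x g y ∧ X.nn x g y ≤ n ∧ Z = X.B x g y},
    ∀ w, DegLE (-(r : ℤ)) (X.D.t.repr (Z - Y) w)

end defs

/-- PACKET AM-D1 (2.5 h). From `G_P`, `H_1`, `H_2`, `A_B`, `A_S`, `B_1`, `B_3`. The filtration by the number of syllables.

PROOF. (1) `g ∈ W_b`: `T_g T_w` is supported in `sl ≤ sl w + 1`: `w = l y`, `l ∈ W_b`, `y ∈ Y_b`: `T_g T_w = (T_g T_l) T_y` is a combination of the `T_(l' y)`, `l' ∈ W_b`, `sl (l' y) ≤ 1 + sl y`, `sl y ≤ sl w` (`B_3`: `sl (l y)` is `sl y` or `sl y + 1`). `k ∈ W_K`: `T_k T_w` is supported in `sl ≤ sl w`: `w = κ y`, `y ∈ Y_K`, `sl (κ' y) = sl y`.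
(2) `T_u T_w`, `sl ≤ sl u + sl w`: induction on `sl u`: `sl u = 0`: (1). `sl u ≥ 1`: `u ∉ W_K`. Write `u = l u'` with `l ∈ W_b`, `l ∉ W_K`, `u' ∈ Y_b`: take the decomposition `u = κ y`, `y ∈ Y_K`, `y ≠ 1`, `y ∈ Y_(!b)` for some `b` (`B_1`), `y = a u'`, `a ∈ W_b ∩ Y_K`, `u' ∈ Y_b`, `l = κ a`; `sl u = sl u' + 1` (`B_3` (9)), `T_u = T_l T_(u')`. (3) `bar T_u` is supported in `sl ≤ sl u`: same induction:
`bar T_u = bar T_l bar T_(u')`, `bar T_l` is supported in `W_b` (`A_S`). (4) `c_w`: if some `y` with `sl y > sl w` has a nonzero `T_y`-coordinate `p_y`, take one of maximal length; compare the `T_y`-coordinates in `bar c_w = c_w`: terms `u` with `sl u ≤ sl w` do not contribute by (3), terms with `sl u > sl w`, `u ≠ y` have `ℓ(u) ≤ ℓ(y)` and do not contribute (`H_2`): `p_y = invert p_y`,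
degree `≤ -1`, so `0`. (5) `T_w` in the basis `c`: strong induction on `ℓ(w)`: `T_w = c_w - ∑ p_y T_y`, `ℓ(y) < ℓ(w)`, `sl y ≤ sl w`. So an element is supported in `sl ≤ n` for the `T`-coordinates iff for the `c`-coordinates. (6) `B x g y` is supported in `sl ≤ nn x g y`: `c_g` is a combination of `T_(g')`, `g' ∈ W_b` (`W_K`), `T_x T_(g') = T_(x g')`, `sl (x g') ≤ sl x + [g ∉ W_K]`
(if `g ∈ W_K` then all `g' ∈ W_K`), then (2). -/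
def D_1 : Prop := ∀ (S W H : Type) [Group W] [Ring H] [Algebra ℤ[T;T⁻¹] H] (X : AC S W H),
  (∀ u w z, X.D.t.repr (X.D.t u * X.D.t w) z ≠ 0 → X.sl z ≤ X.sl u + X.sl w) ∧
  (∀ u z, X.D.t.repr (X.D.bar (X.D.t u)) z ≠ 0 → X.sl z ≤ X.sl u) ∧
  (∀ w z, X.D.t.repr (X.D.c w) z ≠ 0 → X.sl z ≤ X.sl w) ∧
  (∀ (n : ℕ) (Z : H), (∀ z, X.D.t.repr Z z ≠ 0 → X.sl z ≤ n) ↔ ∀ z, X.b.repr Z z ≠ 0 → X.sl z ≤ n) ∧
  (∀ x g y, X.Adm x g y → ∀ z, X.D.t.repr (X.B x g y) z ≠ 0 → X.sl z ≤ X.nn x g y)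

/-- PACKET AM-D2 (2 h). From `G_P`, `A_S`, `A_P`, `B_1`, `B_3`, `D_1`, `H_2`. The modules `I_M^(≤ n)` and multiplication, and the bar map.

PROOF. (1) Let `Adm x₀ g y₀`, `M < α g`, `u, u'` arbitrary; `Z := T_u c_g T_(u')`. CLAIM: `Z ∈ Idl M (sl u + [g ∉ W_K] + sl u')`. If `g ∉ W_K`: `g ∈ W_b`, `u = x l`, `u' = l' y`, `x ∈ X_b`, `y ∈ Y_b`, `l, l' ∈ W_b`; `sl x ≤ sl u`, `sl y ≤ sl u'` (`B_3`). `T_l c_g T_(l')` is a combination of `c_(g')`, `g' ∈ W_b`, `α g' ≥ α g` (`T_l`, `T_(l')` are combinations of `c_v`, `v ∈ W_b`,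
and `p4`). `Z` is a combination of `B x g' y`, `nn ≤ sl x + 1 + sl y`. If `g ∈ W_K`: the same with `K` in place of `F b`: `sl x = sl u`, `g' ∈ W_K`, `nn x g' y = sl x + sl y`. (2) `T_w (B x g y) = ∑ f T_u c_g T_y` with `sl u ≤ sl w + sl x` (`D_1`): in `Idl M (n + sl w)`. Same on the right. (3) `bar (B x g y) = bar(T_x) c_g bar(T_y)`: combination of `T_u c_g T_(u')` with `sl u ≤ sl x`,
`sl u' ≤ sl y` (`D_1`); `bar` is semilinear (`H_2`). Use `Submodule.span_induction`. -/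
def D_2 : Prop := ∀ (S W H : Type) [Group W] [Ring H] [Algebra ℤ[T;T⁻¹] H] (X : AC S W H) (M : ℕ),
  (∀ g, (∃ b, g ∈ par X.cs (X.F b)) → M < X.α g → ∀ u u' n, X.sl u + X.nn 1 g 1 + X.sl u' ≤ n →
    X.D.t u * X.D.c g * X.D.t u' ∈ X.Idl M n) ∧
  (∀ n Z, Z ∈ X.Idl M n → ∀ w, X.D.t w * Z ∈ X.Idl M (n + X.sl w) ∧ Z * X.D.t w ∈ X.Idl M (n + X.sl w)) ∧
  (∀ n Z, Z ∈ X.Idl M n → X.D.bar Z ∈ X.Idl M n)

/-- PACKET AM-D3 (1.5 h). From `G_P`, `H_1`, `H_2`, `A_S`, `B_1`, `B_2`, `B_3`, `B_5`, `D_1`. Reduction modulo `I_M`.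

PROOF. Strong induction on `ℓ(w)`. If not `Ge (M+1) w`: `l = T_w`. Let `Ge (M+1) w` (`B_5` (3)). (i) `w ∈ W_K`, `M < α w`: `T_w = c_w - ∑ p_y T_y`, `y ∈ W_K`, `ℓ(y) < ℓ(w)`; `c_w = B 1 w 1 ∈ Idl M 0`; `l := -∑ p_y l_y`. (ii) `w = x g y`, type `b`, `M < α g`: `T_w = T_x T_g T_y = B x g y - ∑_(g' ∈ W_b, ℓ(g') < ℓ(g)) p_(g') T_x T_(g') T_y`, and `B x g y ∈ Idl M (sl w)`. `T_x T_(g') T_y` is
supported in lengths `≤ ℓ(x) + ℓ(g') + ℓ(y) < ℓ(w)` (`H_1`, `B_2`) and in `sl ≤ sl x + 1 + sl y = sl w` (`D_1`). So `T_w` is, modulo `Idl M (sl w)`, a combination of `T_u` with `ℓ(u) < ℓ(w)`, `sl u ≤ sl w`; use induction (`Idl M (sl u) ≤ Idl M (sl w)`). -/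
def D_3 : Prop := ∀ (S W H : Type) [Group W] [Ring H] [Algebra ℤ[T;T⁻¹] H] (X : AC S W H) (M : ℕ) (w : W),
  ∃ l : H, X.D.t w - l ∈ X.Idl M (X.sl w) ∧ (¬ X.Ge (M + 1) w → l = X.D.t w) ∧
    ∀ u, X.D.t.repr l u ≠ 0 → ¬ X.Ge (M + 1) u ∧ X.sl u ≤ X.sl w ∧ X.cs.length u ≤ X.cs.length w ∧
      (X.Ge (M + 1) w → X.cs.length u < X.cs.length w)

/-- PACKET AM-D4 (1 h). From `H_2`, `A_S`, `B_1`, `B_2`, `B_3`, `B_9`, `C_2`, `D_1`. The chosen triples and the leading terms of their `T_x c_g T_y`.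

PROOF. (1) `Ch M x g y` implies `Adm x g y` and, with `w = x g y`: `Ge (M+1) w`, `sl w = nn x g y` (`B_3`; reduced by `B_2`), the `T_w`-coordinate of `B x g y` is `1`, and the `T_u`-coordinates for `u ≠ w`, `sl u = sl w`, have degree `≤ -1`: for `x = y = 1`, `g ∈ W_K`: `B = c_g`. For a type `b` triple: `C_2`: `B x g y = T_w + ∑ q_u T_u + ∑ π_k B x k y`, `ℓ(u) < ℓ(w)`, and `B x k y` is supported in
`sl ≤ sl x + sl y < sl w` (`D_1`, `Adm x k y`). (2) Injectivity: `x g y = x' g' y' = w`. If `g ∈ W_K` (first alternative) then `sl w = 0`, so `g'` is also in `W_K` (a type `b` triple has `sl ≥ 1`), `g = w = g'`. Both triples of types `b`, `b'`: if `sl x = sl x'`: `B_9` (1). If `sl x < sl x'`: `x' ≠ 1`; with `g' = κ' β'` `B_9` (2) for `m = M + 1 ≤ α g` gives `Ge (M+1) (x' κ')`, contradicting `Ch M x' g' y'`.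
Same for `sl x' < sl x`. -/
def D_4 : Prop := ∀ (S W H : Type) [Group W] [Ring H] [Algebra ℤ[T;T⁻¹] H] (X : AC S W H) (M : ℕ),
  (∀ x g y, X.Ch M x g y → X.Adm x g y ∧ X.Ge (M + 1) (x * g * y) ∧ X.sl (x * g * y) = X.nn x g y ∧
    X.D.t.repr (X.B x g y) (x * g * y) = 1 ∧
    (∀ u, u ≠ x * g * y → X.sl u = X.nn x g y → DegLE (-1) (X.D.t.repr (X.B x g y) u)) ∧
    ∀ u, X.D.t.repr (X.B x g y) u ≠ 0 → X.sl u ≤ X.nn x g y) ∧
  (∀ x g y x' g' y', X.Ch M x g y → X.Ch M x' g' y' → x * g * y = x' * g' * y' → x = x' ∧ g = g' ∧ y = y')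

/-- PACKET AM-D5 (3.5 h). From `G_P`, `A_B`, `A_S`, `A_K`, `A_O`, `A_P`, `A_C`, `A_U`, `B_1`, `B_3`, `B_5`, `B_7`, `C_7b`, `D_1`. Rewriting a non-chosen element.

PROOF. `n := nn x g y = sl x + 1 + sl y`, `g = κ β`, `κ ∈ W_K`, `β ∈ Y_K ∩ W_b`. `A_U` (`P = K`, `Q = F b`): `c_g = v^(-α κ) ∑ lam(p) c_(p.1) c_(p.2 β) - ∑_z e_z c_z`. `A_K` (`P = K`) for `x` and `p.1`: `T_x c_(p.1) = c_(x p.1) - ∑_r p'_r T_(r.1) c_(r.2)`, `deg p'_r ≤ -1`, `r.1 ∈ X_K`, `r.2 ∈ W_K`. So `B x g y = Z₁ - Z₂ - Z₃`,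
`Z₁ = v^(-α κ) ∑ lam(p) c_(x p.1) c_(p.2 β) T_y`, `Z₂ = v^(-α κ) ∑_(p,r) lam(p) p'_r T_(r.1) (c_(r.2) c_(p.2 β)) T_y`, `Z₃ = ∑_z e_z T_x c_z T_y`.
`Z₃`: `z ∈ W_b`, `α z ≥ α g > M`. `z ∈ W_K`: `Adm x z y`, `nn = sl x + sl y < n`: in `LI`. `z ∉ W_K`: `(x, z)` is one of the allowed pairs, `deg e_z ≤ α (LK z) - α κ - 1` (`A_U`).
`Z₂`: `c_(r.2) c_(p.2 β) = ∑_(z ∈ W_b) h c_z`, `α z ≥ α (p.2 β) = α g > M` (`p.2 β ~_L κ β`: `A_O` (6), `A_P`), `deg h ≤ α (LK z)` (`A_C`, mirror part), so the coefficient of `T_(r.1) c_z T_y` has degree `≤ α (LK z) - α κ - 1`. `sl r.1 ≤ sl x`: we may assume this: `T_x c_(p.1) - c_(x p.1)` is supported in `sl ≤ sl x` (`D_1`), and the elements `T_(x') c_(g')` (`x' ∈ X_K`, `g' ∈ W_K`) form a basis such that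
`T_(x') c_(g')` has its `T`-support in `x' W_K`, where `sl` is constant `= sl x'`; so the coordinates `p'_r` with `sl r.1 > sl x` are `0` (collect the terms of `p'` with the same `r`: `p'` is a `Finsupp`, so they are collected). `x' := r.1 ∈ X_K`. If `x' ∈ X_b`: `z ∈ W_K`: `Adm x' z y`, `nn ≤ sl x + sl y < n`. `z ∉ W_K`: `sl x' < sl x`: `nn < n`; `sl x' = sl x`: `(x', z)` is an allowed pair. If `x' ∉ X_b`: `x' ∈ X_(!b)`,
`x' ≠ 1`, `x' = x'' a`, `x'' ∈ X_b`, `a ∈ W_b ∩ X_K` (`B_1` (6) for `!b`), `sl x' = sl x'' + 1`: `T_(x') c_z = T_(x'') (T_a c_z)`, `T_a c_z` is a combination of `c_(z')`, `z' ∈ W_b`, `α z' ≥ α z`; `nn x'' z' y ≤ sl x'' + 1 + sl y ≤ sl x + sl y < n`: in `LI`.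
`Z₁`: `p.1 ~_R κ`, so `Ge (M+1) (x κ) → Ge (M+1) (x p.1)` (`B_7` (2)), `sl (x p.1) = sl x < n` (`B_3`), so `c_(x p.1) ∈ Idl M (sl x)` by `CC M n`. Let `B x₁ g₁ y₁` be a generator of `Idl M (sl x)`: `nn x₁ g₁ y₁ ≤ sl x`, `M < α g₁`. `T_(y₁) c_(p.2 β) T_y` is supported in `sl ≤ sl y₁ + 1 + sl y` (`D_1`). So `B x₁ g₁ y₁ c_(p.2 β) T_y` is a combination of `T_(x₁) c_(g₁) T_(u')`, `sl u' ≤ sl y₁ + 1 + sl y`. If `g₁ ∉ W_K`:
`g₁ ∈ W_c`, `x₁ ∈ X_c`, `u' = l' y'` (`l' ∈ W_c`, `y' ∈ Y_c`, `sl y' ≤ sl u'`), `c_(g₁) T_(l')` is a combination of `c_(g')`, `g' ∈ W_c`, `α g' ≥ α g₁`; `B x₁ g' y'`: `nn ≤ sl x₁ + 1 + sl y₁ + 1 + sl y ≤ n`; `g' ∉ W_K`: `sl x₁ < sl x`: in `LI`; `g' ∈ W_K`: `nn ≤ n - 1`. If `g₁ ∈ W_K`: `x₁ ∈ X_K`, `u' = κ'' y'`, `y' ∈ Y_K`: combination of `B x₁ g' y'`, `g' ∈ W_K`, `α g' ≥ α g₁`,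
`nn = sl x₁ + sl y' ≤ sl x₁ + sl y₁ + 1 + sl y ≤ n`. If `x₁ = y' = 1`: `nn = 0 < n`. Otherwise `C_7b`: `B x₁ g' y'` is a combination of `B r` with `α r.2.1 ≥ α g' > M` and `nn r < n`, or `nn r ≤ n`, `r.2.1 ∉ W_K` and (`sl r.1 < sl x₁ ≤ sl x`, or `r.1 = 1` and `sl r.1 = 0 < sl x`, as `x ≠ 1` is in `X_K`, so `x ∉ W_K`): in `LI`. -/
def D_5 : Prop := ∀ (S W H : Type) [Group W] [Ring H] [Algebra ℤ[T;T⁻¹] H] (X : AC S W H) (M n : ℕ) (b : Bool)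
    (x g y κ β : W), X.CC M n → X.Tp b x g y → M < X.α g → X.nn x g y = n → x ≠ 1 → κ ∈ par X.cs X.K →
    XL X.cs X.K β → g = κ * β → X.Ge (M + 1) (x * κ) →
  ∃ e : W × W →₀ ℤ[T;T⁻¹],
    (∀ r ∈ e.support, XR X.cs (X.F b) r.1 ∧ r.2 ∈ par X.cs (X.F b) ∧ r.2 ∉ par X.cs X.K ∧ X.sl r.1 = X.sl x ∧
      M < X.α r.2 ∧ ∀ κ' β', κ' ∈ par X.cs X.K → XL X.cs X.K β' → r.2 = κ' * β' →
        DegLE ((X.α κ' : ℤ) - X.α κ - 1) (e r)) ∧
    X.B x g y - (e.sum fun r p => p • X.B r.1 r.2 y) ∈ X.LI M n (X.sl x)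

/-- PACKET AM-D6 (3 h). From `G_P`, `A_P`, `B_1`, `B_3`, `C_7b`, `D_5`, `H_2`. Approximation by chosen elements.

PROOF. `Ap M n` is closed under sums and under multiplication by `p ∈ ℤ[v,v⁻¹]` (`deg p ≤ k`, `k ≥ 0`: use `r + k`), `Ap M n' Z → Ap M n Z` for `n' ≤ n`; if for every `r` there is `Z'` with `Ap M n Z'` and `Z - Z'` has coordinates of degree `≤ -r` then `Ap M n Z`. Let `C ≥ 0` be such that all coordinates of all `B x g y` have degree `≤ C` (`Bdd` with `N`: `T_x T_(g') T_y` has coordinates of degree `≤ 2N`,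
`c_g` has coordinates of degree `≤ 0`), `N' ≥ α` on `W_K`. `CC M n → CC M n'` for `n' ≤ n`. Strong induction on `n' ≤ n`: all `B x g y` with `Adm`, `M < α g`, `nn x g y = n'` satisfy `Ap M n'`. For `g ∉ W_K` (type `b` triples): strong induction on `s = sl x`. So the elements of `LI M n' s` satisfy `Ap M n'` (those with `nn < n'`: outer induction; `nn = n'`, `g ∉ W_K`, `sl x < s`: inner). Fix `b`, `y`. Let
`𝔖` = the pairs `(x, g)` such that `(x, g, y)` is a type `b` triple, `sl x = s`, `M < α g` (then `nn = s + 1 + sl y = n'`), `wt(x,g) := α (LK g) ≤ N'`. CLAIM: for every `d : ℕ` and `(x,g) ∈ 𝔖` there is a finitely supported `e` on `𝔖` with `deg e(r) ≤ wt(r) - wt(x,g) - d` and `B x g y - ∑ e(r) B r.1 r.2 y ∈ Ap M n'`. `d = 0`: `e = single (x,g) 1`. `d + 1`: apply the following to each `r` in the support of the `e`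
for `d`: if `(r.1, r.2, y)` is chosen then `B ∈ Ap` (`Y = B`); if not, then `r.1 ≠ 1` and `Ge (M+1) (r.1 LK(r.2))`, and `D_5` gives `e'` with `deg e'(r') ≤ wt(r') - wt(r) - 1`, remainder in `LI M n' s ⊆ Ap`; the product has degree `≤ wt(r') - wt(x,g) - (d+1)`. For given `r` take `d ≥ r + C + N'`: `∑ e B` has coordinates of degree `≤ N' - d + C ≤ -r`. So `Ap M n' (B x g y)`.
For `g ∈ W_K`: if `x = y = 1`: chosen. Otherwise `C_7b`: `B x g y` is a combination of `B r`, `α r.2.1 ≥ α g > M`, with `nn r < n'` or (`nn r = n'` and `r.2.1 ∉ W_K`): both done. -/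
def D_6 : Prop := ∀ (S W H : Type) [Group W] [Ring H] [Algebra ℤ[T;T⁻¹] H] (X : AC S W H) (M n : ℕ),
  X.D.Bdd → X.CC M n → ∀ x g y, X.Adm x g y → M < X.α g → X.nn x g y ≤ n → X.Ap M n (X.B x g y)

/-- PACKET AM-D7 (2.5 h). From `D_4`. The leading term argument.

PROOF. Let `C ≥ 0` bound the degrees of all coordinates of all `B x g y` (as in `D_6`, from `Bdd`). Let `Z ∈ Idl M n` with `Z` supported in `{w | ¬ Ge (M+1) w}`. `Z` is a combination of generators, so `Ap M n Z` (closure of `Ap` under sums and multiples). Let `r : ℕ`, `Y = ∑_(t ∈ τ) β_t B_t` with `τ` a finite set of chosen triples with `nn t ≤ n`, `Z - Y` with coordinates of degree `≤ -r`.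
CLAIM (induction on `m`): if `Y = ∑_(t ∈ τ) β_t B_t`, all `nn t < m`, and `Z - Y` has coordinates of degree `≤ k`, then `Z` has coordinates of degree `≤ k + m C`. `m = 0`: `Y = 0`. `m + 1`: let `τ₀ = {t ∈ τ | nn t = m}`. All `β_t`, `t ∈ τ₀`, have degree `≤ k`: otherwise let `d > k` be maximal such that some `β_t`, `t ∈ τ₀`, has a nonzero coefficient at `v^d`, `w` = product of such a `t`
(`Ge (M+1) w`, so `Z` has the `T_w`-coordinate `0`). By `D_4` the `T_w`-coordinate of `Y` is `β_t + ∑_(t' ∈ τ₀, t' ≠ t) β_(t') (deg ≤ -1)` (the products of the `t'` are `≠ w` by injectivity; the `t'` with `nn t' < m` have no coordinate at `w`, as `sl w = m`), and its coefficient of `v^d` is that of `β_t`, nonzero; but it is minus the `T_w`-coordinate of `Z - Y`, of degree `≤ k < d`. So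
`Y' := Y - ∑_(τ₀) β_t B_t` satisfies: `Z - Y'` has coordinates of degree `≤ k + C`. Induction. So `Z` has coordinates of degree `≤ -r + (n+1) C` for all `r`: `Z = 0` (`eq_zero_of_degLE`). -/
def D_7 : Prop := ∀ (S W H : Type) [Group W] [Ring H] [Algebra ℤ[T;T⁻¹] H] (X : AC S W H) (M n : ℕ),
  X.D.Bdd → (∀ x g y, X.Adm x g y → M < X.α g → X.nn x g y ≤ n → X.Ap M n (X.B x g y)) → X.NN M n

/-- PACKET AM-D8 (2 h). From `H_2`, `B_5`, `D_1`, `D_2`, `D_3`. `c_u ∈ I_M` if `a'(u) > M`, and P1.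

PROOF. (1) Let `l` be `Low M n (-1)` and `l - bar l ∈ Idl M n`. Then `l = 0`: `bar l = ∑_w invert(l_w) bar(T_w)`, `bar T_w = T_w + ∑_(ℓ(y) < ℓ(w), sl y ≤ sl w) r_y T_y` (`H_2`, `D_1`), `T_y = l_y' + Idl M (sl y)` with `l_y'` supported in `¬ Ge (M+1)`, lengths `≤ ℓ(y) < ℓ(w)` (`D_3`). So `Z := l - ∑_w invert(l_w) (T_w + ∑_y r_y l_y')` is in `Idl M n` and supported in `¬ Ge (M+1)`; `NN M n`: `Z = 0`. If `l ≠ 0` let
`w` be of maximal length with `l_w ≠ 0`: the `T_w`-coordinate of `Z` is `l_w - invert(l_w)`, so `l_w = invert l_w`, degree `≤ -1`: `l_w = 0` (`eq_zero_of_invert`), contradiction. (2) Let `Ge (M+1) u`, `n = sl u`. `c_u = T_u + ∑ p_y T_y`, `deg p_y ≤ -1`, `sl y ≤ n` (`D_1`, `H_2`). `SA`: `T_u ∈ LamT M n (-1)`, `T_y ∈ LamT M (sl y) 0`, so `c_u ∈ LamT M n (-1)`: `c_u = l + ι`, `l` `Low M n (-1)`, `ι ∈ Idl M n`,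
`T_1`-coefficient of `ι` of degree `≤ -1 - M`. `l - bar l = (c_u - ι) - (c_u - bar ι) ∈ Idl M n` (`D_2`). So `l = 0`, `c_u = ι`. -/
def D_8 : Prop := ∀ (S W H : Type) [Group W] [Ring H] [Algebra ℤ[T;T⁻¹] H] (X : AC S W H) (M : ℕ),
  (∀ n, X.SA n) → ∀ u, X.Ge (M + 1) u → X.NN M (X.sl u) →
    X.D.c u ∈ X.Idl M (X.sl u) ∧ DegLE (-(M : ℤ) - 1) (X.D.t.repr (X.D.c u) 1)

end Pool.Agent.Helper45.AM
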