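import Pool.Agent.Helper45.AM.GoalsB

/-!
# Project AM (MP_cc6379_al): goals, part C. The key induction.

Notation as in parts A and B. `X.B x g y = T_x c_g T_y`; `X.Adm x g y`: `(x, g, y)` is a triple `x ∈ X_b`, `g ∈ W_b`, `y ∈ Y_b` (some `b`), or
`x ∈ X_K`, `g ∈ W_K`, `y ∈ Y_K`. `X.nn x g y = sl x + [g ∉ W_K] + sl y`. `X.Tp b x g y` (type `b` triple): `x ∈ X_b`, `g ∈ W_b \ W_K`, `y ∈ Y_b`.
`X.LamT M n k Z`: `Z = l + ι`, `l` is a combination of `T_w`, `a'(w) ≤ M`, `sl w ≤ n`, with coefficients of degree `≤ k`, `ι ∈ Idl M n` with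
`T_1`-coefficient of degree `≤ k - M`. `X.eps M x g y = 1` if `a'(x g) < M` or `a'(g y) < M`, else `0`. `SA n`: statement (a) for `sl w < n`, `SB n`:
statement (b) for `nn x g y < n`. Closure properties of `Low`, `Lam`, `LamT` (sums, multiples, monotonicity), and of `eps`: `Basic.lean`.
`M` is an arbitrary natural number (a level), not the Coxeter matrix.
-/

set_option autoImplicit false

open LaurentPolynomial Pool.Agent.Helper15.RA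

noncomputable section

namespace Pool.Agent.Helper45.AM

/-- `T_x c_k T_y` (`k ∈ W_K`) is a combination of other `T_x' c_g' T_y'`, with good control. -/
def AC.Ex {S W H : Type} [Group W] [Ring H] [Algebra ℤ[T;T⁻¹] H] (X : AC S W H) (x k y : W) : Prop :=
  ∃ e : W × W × W →₀ ℤ[T;T⁻¹], X.B x k y = (e.sum fun r p => p • X.B r.1 r.2.1 r.2.2) ∧
    ∀ r ∈ e.support, X.Adm r.1 r.2.1 r.2.2 ∧ X.α k ≤ X.α r.2.1 ∧
      (X.nn r.1 r.2.1 r.2.2 < X.nn x k y ∨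
        (X.nn r.1 r.2.1 r.2.2 = X.nn x k y ∧ r.2.1 ∉ par X.cs X.K ∧ (X.sl r.1 < X.sl x ∨ r.1 = 1))) ∧
      ∀ M, DegLE ((X.α r.2.1 : ℤ) - X.α k + X.eps M r.1 r.2.1 r.2.2 - X.eps M x k y) (e r)

/-- PACKET AM-C1 (1 h). From `G_P`, `H_1`, `A_S`, `B_1`. The `T_1`-coefficient of `T_x c_g T_y`.

PROOF. `x ∈ X_P`, `g ∈ W_P`, `y ∈ Y_P` with `P = F b` or `P = K`. `c_g = ∑_(g' ∈ W_P) p_(g') T_(g')` (`A_S`), `T_x T_(g') = T_(x g')`, and the `T_1`-coefficient of `T_(x g') T_y` is `1` if `x g' y = 1`, else `0` (`H_1`). `x g' y = 1`: `x g' = y⁻¹ ∈ X_P`, so `g' = 1` and `x = y⁻¹` (uniqueness). So the coefficient is `p_1` if `x y = 1` and `0` otherwise, and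
`deg p_1 ≤ -α g` by `p1` of `X.pg b` or `X.pgK`. -/
def C_1 : Prop := ∀ (S W H : Type) [Group W] [Ring H] [Algebra ℤ[T;T⁻¹] H] (X : AC S W H) (x g y : W),
  X.Adm x g y → DegLE (-(X.α g : ℤ)) (X.D.t.repr (X.B x g y) 1)

/-- PACKET AM-C2 (2 h). From `G_P`, `H_2`, `A_S`, `A_1`, `B_1`, `B_2`, `B_3`, `B_5`, `B_7`. Expansion of `T_x c_g T_y` for a type `b` triple.

PROOF. `c_g = ∑_(g' ∈ W_b) p_(g') T_(g')`, `p_g = 1`, `deg p_(g') ≤ -1` and `ℓ(g') < ℓ(g)` for the others (`A_S`, `H_2`). For `g' ∉ W_K` `(x, g', y)` is a type `b` triple, so `T_x T_(g') T_y = T_(x g' y)` (`B_2`), `sl (x g' y) = sl x + 1 + sl y` (`B_3`), `ℓ(x g' y) = ℓ(x) + ℓ(g') + ℓ(y)`. This gives `T_(x g y)` and `q` (`g' ↦ x g' y` is injective). The part in `W_K` is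
`pr K (c_g) = ∑_(k ∈ W_K) π_k c_k`, `π_k := X.b.repr (X.pr K (c_g)) k`, and `A_1` (`P = K`, `Q = F b`, `w = g`; `X.pgK`, `X.pg b`) gives the degrees. If the coefficient of `v^(α k - α g)` in `π_k` is nonzero: `k ~_R LK(g)` and `k ~_L RK(g)` in `W_K`. Then `Ge M (x k) → Ge M (x LK(g))` (`B_7` (2): `LK(g) ≤_R k`) `→ Ge M (x g)` (`B_5` (1), `x g = (x LK(g)) . y₁`
reduced), and `Ge M (k y) → Ge M (RK(g) y) → Ge M (g y)`; so `eps M x g y ≤ eps M x k y` (`AC.eps_le`). -/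
def C_2 : Prop := ∀ (S W H : Type) [Group W] [Ring H] [Algebra ℤ[T;T⁻¹] H] (X : AC S W H) (b : Bool) (x g y : W),
  X.Tp b x g y → ∃ q π : W →₀ ℤ[T;T⁻¹],
    (∀ u ∈ q.support, X.sl u = X.sl x + 1 + X.sl y ∧ X.cs.length u < X.cs.length (x * g * y) ∧ DegLE (-1) (q u)) ∧
    (∀ k ∈ π.support, k ∈ par X.cs X.K ∧ DegLE ((X.α k : ℤ) - X.α g) (π k) ∧
      ((π k).coeff ((X.α k : ℤ) - X.α g) ≠ 0 → ∀ M, X.eps M x g y ≤ X.eps M x k y)) ∧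
    X.B x g y = X.D.t (x * g * y) + (q.sum fun u p => p • X.D.t u) + π.sum fun k p => p • X.B x k y

/-- PACKET AM-C3 (2 h). From `G_P`, `H_2`, `A_S`, `B_1`, `B_2`, `B_3`, `B_5`, `C_1`, `C_2`. (b) for fewer than `n` syllables implies (a) for at most `n` syllables.

PROOF. Let `sl w ≤ n`, induction on `ℓ(w)` (`M` fixed; prove the statement with `n` replaced by `X.sl w` inside `LamT` as in `SA`). If not `Ge (M+1) w`: `T_w` is `Low M (sl w) 0`, so in `LamT M (sl w) 0` (`LamT.of_low`). Let `Ge (M+1) w`; it suffices to show `LamT M (sl w) (-1) (T_w)`. `B_5` (3): (i) `w ∈ W_K`, `M + 1 ≤ α w`: `c_w = B 1 w 1 ∈ Idl M 0` (`Adm 1 w 1`, `nn = 0`) with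
`T_1`-coefficient of degree `≤ -α w ≤ -1 - M`: `LamT.of_idl`. `T_w = c_w - ∑_(ℓ(y) < ℓ(w)) p_y T_y`, `y ∈ W_K` (`sl y = 0 = sl w`), `deg p_y ≤ -1`, `T_y ∈ LamT M 0 0` by induction. (ii) `w = x g y`, a type `b` triple, `M + 1 ≤ α g`; `sl w = sl x + 1 + sl y = nn x g y`. `B x g y ∈ Idl M (sl w)` with `T_1`-coefficient of degree `≤ -α g ≤ -1 - M` (`C_1`).
By `C_2` `T_w = B x g y - ∑ q_u T_u - ∑ π_k B x k y`. `T_u ∈ LamT M (sl u) 0` by induction (`sl u = sl w`, `ℓ(u) < ℓ(w)`), `deg q_u ≤ -1`. `Adm x k y` (`X_b ⊆ X_K`, `Y_b ⊆ Y_K`), `nn x k y = sl x + sl y = sl w - 1 < n`: `SB n` gives `B x k y ∈ LamT M (sl w - 1) (M - α k - eps)`, and `deg π_k ≤ α k - α g`: total `≤ M - α g ≤ -1`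
(`LamT.smul_le`). -/
def C_3 : Prop := ∀ (S W H : Type) [Group W] [Ring H] [Algebra ℤ[T;T⁻¹] H] (X : AC S W H) (n : ℕ),
  X.SB n → X.SA (n + 1)

/-- PACKET AM-C4 (1.5 h). From `B_1`, `B_3`, `B_5`, `C_1`, `C_2`. (b) for a type `b` triple with `nn = sl x + 1 + sl y ≤ n`.

PROOF. `n' := nn x g y = sl x + 1 + sl y = sl (x g y)`. If `M < α g`: `B x g y ∈ Idl M n'`, `T_1`-coefficient of degree `≤ -α g` (`C_1`), `eps = 0` since `Ge (α g) (x g)`, `Ge (α g) (g y)` (`B_5`): `LamT.of_idl`. Let `α g ≤ M`. `C_2`: `B x g y = T_(x g y) + ∑ q_u T_u + ∑ π_k B x k y`. `T_(x g y), T_u ∈ LamT M n' 0` by `SA (n+1)` (`sl u = n'`), coefficients of degree `≤ 0`;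
`0 ≤ M - α g - eps`: clear if `eps = 0`; if `eps = 1` then `¬ Ge M (x g)` or `¬ Ge M (g y)`, while `Ge (α g)` holds for both, so `α g < M` (`B_5` (5)). `B x k y ∈ LamT M (n'-1) (M - α k - eps M x k y)` by `SB n`; `deg π_k ≤ α k - α g`. If the coefficient of `v^(α k - α g)` in `π_k` is nonzero then `eps M x g y ≤ eps M x k y` and the total is `≤ M - α g - eps M x g y`; otherwise
`deg π_k ≤ α k - α g - 1` (`degLE_sub_one`) and the total is `≤ M - α g - 1 ≤ M - α g - eps`. -/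
def C_4 : Prop := ∀ (S W H : Type) [Group W] [Ring H] [Algebra ℤ[T;T⁻¹] H] (X : AC S W H) (n : ℕ),
  X.SB n → X.SA (n + 1) → ∀ (M : ℕ) (b : Bool) (x g y : W), X.Tp b x g y → X.nn x g y < n + 1 →
    X.LamT M (X.nn x g y) ((M : ℤ) - X.α g - X.eps M x g y) (X.B x g y)

/-- PACKET AM-C5 (2.5 h). From `G_P`, `A_K`, `A_L`, `A_P`, `B_1`, `B_3`, `B_5`, `B_6`. Rewriting `T_x c_k T_y`, `k ∈ W_K`, tight case.

PROOF. `x ∈ X_b`, `y ∈ Y_(!b)`. Case `x ≠ 1`: `x = x' a`, `x' ∈ X_(!b)`, `a ∈ W_(!b) ∩ X_K`, `a ≠ 1`, `sl x = sl x' + 1`. `T_x = T_(x') T_a`. By `A_K` (`P = K`) `T_a c_k = ∑_z q_z c_z`, `q_(a k) = 1`, and for the others `deg q_z ≤ -1`, `z = a' k'`, `k' ≤_L k`, so `α k ≤ α k'`; `z ∈ W_(!b)` (`A_S`-type support: `T_a c_k` is supported in `W_(!b)`), `z = a' . k'` reduced so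
`α z ≥ α k' ≥ α k` (`A_P` for `X.pg (!b)`; also `α (a k) ≥ α k`). So `B x k y = ∑ q_z B x' z y`, `Adm x' z y` (type `!b`: `x' ∈ X_(!b)`, `y ∈ Y_(!b)`). `nn x k y = sl x + sl y = sl x' + 1 + sl y`; `nn x' z y = sl x' + [z ∉ W_K] + sl y`: smaller if `z ∈ W_K`, equal if `z ∉ W_K`, and `sl x' < sl x`. Degrees: let `ε = eps M x k y`, `ε' = eps M x' z y` (both in `{0,1}`).
`z ≠ a k`: `-1 ≤ α z - α k + ε' - ε`. `z = a k`: need `0 ≤ α z - α k + ε' - ε`: clear unless `ε = 1`, `ε' = 0`. In that case `Ge M (x' z) = Ge M (x k)` and `Ge M (z y)`, so `¬ Ge M (k y)`. `z = a k`, `a ∈ X_K`, `y ∈ Y_(!b)`, `z ∈ W_(!b)`: `B_6` (2) gives `M ≤ α z` or `Ge M (k y)`, so `M ≤ α z`. `Ge (α k) (k y)` (`B_5`) and `¬ Ge M (k y)` give `α k < M ≤ α z`. So `α z - α k ≥ 1`.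
Case `x = 1`, `y ≠ 1`: `y ∈ Y_(!b)`, `y = a y'`, `y' ∈ Y_b`, `a ∈ W_b ∩ Y_K`, `a ≠ 1`, `sl y = 1 + sl y'`; `c_k T_a = ∑ q_z c_z`, `z ∈ W_b` (`A_L`), `B 1 k y = ∑ q_z B 1 z y'`, `Adm 1 z y'` (type `b`), with `r.1 = 1`; the rest as before with left and right exchanged (`B_6` (1)). -/
def C_5 : Prop := ∀ (S W H : Type) [Group W] [Ring H] [Algebra ℤ[T;T⁻¹] H] (X : AC S W H) (b : Bool) (x k y : W),
  XR X.cs (X.F b) x → k ∈ par X.cs X.K → XL X.cs (X.F (!b)) y → x ≠ 1 ∨ y ≠ 1 → X.Ex x k y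

/-- PACKET AM-C6 (2 h). From `G_P`, `A_R`, `A_P`, `A_S`, `B_1`, `B_3`, `B_5`, `B_7`. Rewriting `T_x c_k T_y`, `k ∈ W_K`, merging case.

PROOF. `x ∈ X_b`, `y ∈ Y_b`, `x, y ≠ 1`: `x = x' a`, `y = c y'` with `x' ∈ X_(!b)`, `y' ∈ Y_(!b)`, `a ∈ W_(!b) ∩ X_K`, `c ∈ W_(!b) ∩ Y_K`, `sl x = sl x' + 1`, `sl y = sl y' + 1`. `A_R` (`P = K`, `Q = F (!b)`): `T_a c_k T_c = ∑_(z ∈ W_(!b)) η_z c_z`, `deg η_z ≤ α z - α k`, with equality only if `z ~_R a k` and `z ~_L k c` in `W_(!b)`. `B x k y = ∑ η_z B x' z y'`, `Adm x' z y'`,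
`nn x' z y' ≤ sl x' + 1 + sl y' < sl x + sl y = nn x k y`. `α k ≤ α z`: every `z` with `η_z ≠ 0` is reached from `k` by steps `≤_L`, `≤_R` in `W_(!b)` (`T_a`, `T_c` are combinations of `c_u`, `u ∈ W_(!b)`), use `p4`. Degrees: `ε = eps M x k y`, `ε' = eps M x' z y'`. If the coefficient of `v^(α z - α k)` in `η_z` is `0`: `deg η_z ≤ α z - α k - 1 ≤ α z - α k + ε' - ε`. Otherwise
`z ~_R a k`: `Ge M (x' z) ↔ Ge M (x' a k) = Ge M (x k)` (`B_7` (1), both directions, type `!b`), `z ~_L k c`: `Ge M (z y') ↔ Ge M (k c y') = Ge M (k y)`: `ε' = ε`. -/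
def C_6 : Prop := ∀ (S W H : Type) [Group W] [Ring H] [Algebra ℤ[T;T⁻¹] H] (X : AC S W H) (b : Bool) (x k y : W),
  XR X.cs (X.F b) x → k ∈ par X.cs X.K → XL X.cs (X.F b) y → x ≠ 1 → y ≠ 1 → X.Ex x k y

/-- PACKET AM-C7 (1.5 h). From `B_1`, `B_3`, `B_5`, `C_1`, `C_4`, `C_5`, `C_6`, `H_2`, `A_S`. (b) for at most `n` syllables.

PROOF. Let `Adm x g y`, `nn x g y ≤ n`. If `g ∉ W_K`: it is a type `b` triple (`g ∉ W_K` excludes the second alternative of `Adm`): `C_4`. Let `g ∈ W_K`; then `x ∈ X_K`, `y ∈ Y_K`. If `x = y = 1`: `nn = 0` and `B 1 g 1 = c_g`. If `M < α g`: `LamT.of_idl` (`C_1`, `eps = 0` by `B_5`). If `α g ≤ M`: `c_g = T_g + ∑ p_y T_y`, `y ∈ W_K`, `deg p_y ≤ -1`: in `LamT M 0 0` by `SA (n+1)` (`sl = 0`), and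
`0 ≤ M - α g - eps` as in `C_4`. Otherwise `X.Ex x g y`: `x ∈ X_b`, `y ∈ Y_c` (`B_1`): `c = !b`: `C_5`. `c = b`: if `x = 1` then `x ∈ X_(!b)` too: `C_5` for `!b` (`!(!b) = b`); if `y = 1`: `y ∈ Y_(!b)`: `C_5`; else `C_6`. So `B x g y = ∑ e_r B r`, each `r` has `nn r < nn x g y ≤ n` (use `SB n`) or `nn r = nn x g y`, `r.2.1 ∉ W_K` (use `C_4`): `B r ∈ LamT M (nn r) (M - α r.2.1 - eps M r)`,
`deg e_r ≤ α r.2.1 - α g + eps M r - eps M x g y`: total `≤ M - α g - eps M x g y`. -/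
def C_7 : Prop := ∀ (S W H : Type) [Group W] [Ring H] [Algebra ℤ[T;T⁻¹] H] (X : AC S W H) (n : ℕ),
  X.SB n → X.SA (n + 1) → X.SB (n + 1)

/-- PACKET AM-C7b (0.5 h). From `B_1`, `C_5`, `C_6`. All the rewritings.

PROOF. `k ∈ W_K`, `x ∈ X_K`, `y ∈ Y_K` (from `Adm`; `X_b ⊆ X_K`), not `x = y = 1`: the case distinction in the proof of `C_7`. -/
def C_7b : Prop := ∀ (S W H : Type) [Group W] [Ring H] [Algebra ℤ[T;T⁻¹] H] (X : AC S W H) (x k y : W),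
  X.Adm x k y → k ∈ par X.cs X.K → x ≠ 1 ∨ y ≠ 1 → X.Ex x k y

/-- PACKET AM-C8 (1.5 h). From `G_P`, `H_1`, `A_B`, `A_S`, `B_1`, `B_5`. Boundedness (B).

PROOF. Let `N₀` be such that `¬ Ge (N₀ + 1) w` for all `w` (`B_5`), `M := N₀`. `Idl M n = ⊥`: a generator has `M < α g`, but `Ge (α g) g` (`B_5`) gives `α g ≤ N₀`. So `SB` gives: `Adm x g y` implies that `B x g y` is `Low M _ (M - α g - eps)`, so all its `T`-coordinates have degree `≤ N₀`. Let `w = x k₁`, `w' = k₂ y`, `x ∈ X_K`, `y ∈ Y_K`, `k₁, k₂ ∈ W_K`. `T_(k₁) T_(k₂)` has `T`-coordinates of degree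
`≤ N` (`X.pgK.bdd`), so `c`-coordinates `f_k` of degree `≤ N` (`A_B`), `k ∈ W_K` (`A_S`). `T_w T_(w') = T_x T_(k₁) T_(k₂) T_y = ∑ f_k B x k y`: degree `≤ N + N₀`. -/
def C_8 : Prop := ∀ (S W H : Type) [Group W] [Ring H] [Algebra ℤ[T;T⁻¹] H] (X : AC S W H),
  (∀ n, X.SB n) → X.D.Bdd

end Pool.Agent.Helper45.AM
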