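import Pool.Agent.Helper45.AM.Basic

/-!
# Project AM (MP_cc6379_al): goals, part B. Combinatorics of the amalgam `S = F true ∪ F false`.

Notation. `X : AC S W H`, `S_b = X.F b` (`b : Bool`), `K = X.K = F true ∩ F false = F b ∩ F (!b)`; `W_b = par X.cs (X.F b)`, `W_K = par X.cs X.K`;
`X_b, X_K` = the `x` with `XR X.cs (X.F b) x`, `XR X.cs X.K x`; `Y_b, Y_K` = the `y` with `XL ..`; `ℓ = X.cs.length`. `X_b = Y_b⁻¹`. For `i ∈ F b \ F (!b)`,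
`j ∈ F (!b) \ F b` we have `M i j = 0` (infinite), and then (`G_D` of part G) no `w ∈ W` has both `i` and `j` as right (or left) descents. Parabolic facts (decompositions
`w = x g`, uniqueness, additivity, descents, `par P ∩ par Q = par (P ∩ Q)`, reduced factors of elements of `W_P` are in `W_P`): `G_P` stands for `G_PA`, `G_PB`, `G_PC` of `Pool.Agent.Helper15.AM.GoalsG` (take those you use as hypotheses; `G_D` is there too).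
`x . g` reduced means that `ℓ` is additive. A type `b` triple is `(x, g, y)` with `x ∈ X_b`, `g ∈ W_b`, `g ∉ W_K`, `y ∈ Y_b`.
Mirror images: apply the statement to the inverses (`XL P y ↔ XR P y⁻¹`, `ℓ(w⁻¹) = ℓ(w)`).
-/

set_option autoImplicit false

open LaurentPolynomial Pool.Agent.Helper15.RA

noncomputable section

namespace Pool.Agent.Helper45.AM

/-- `(x, g, y)` is a triple of type `b`. -/
def AC.Tp {S W H : Type} [Group W] [Ring H] [Algebra ℤ[T;T⁻¹] H] (X : AC S W H) (b : Bool) (x g y : W) : Prop :=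
  XR X.cs (X.F b) x ∧ g ∈ par X.cs (X.F b) ∧ g ∉ par X.cs X.K ∧ XL X.cs (X.F b) y

/-- `x = z_1 ⋯ z_(n-1)` and `w = z_1 ⋯ z_n k` in normal form. -/
def AC.Rc {S W H : Type} [Group W] [Ring H] [Algebra ℤ[T;T⁻¹] H] (X : AC S W H) (x w : W) : Prop :=
  ∃ b l, XR X.cs (X.F b) x ∧ l ∈ par X.cs (X.F b) ∧ l ∉ par X.cs X.K ∧ w = x * l

/-- PACKET AM-B1 (1.5 h). From `G_P`, `G_D`. Minimal representatives.

PROOF. (1) `K ⊆ F b`. (2) `par P ∩ par Q = par (P ∩ Q)`. (3) `K ⊆ F b`. (4) `x ∈ X_K`: the right descents of `x` are outside `K`, so each is in exactly one `F b` (`cover`); a right descent `i ∈ F b \ F (!b)` and a right descent `j ∈ F (!b) \ F b` cannot both exist. If there is none in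
`F true` then `x ∈ X_true`, otherwise none in `F false`. (5) no right descents at all: `x = 1` (`exists_rightDescent_of_ne_one`). (6) decompose `x = x' a` with respect to `F (!b)`. Right descents of `a` are right descents of `x` (`ℓ(x s) = ℓ(x') + ℓ(a s)` for `s ∈ F (!b)`), so `a ∈ X_K`.
`x` has a right descent (`x ≠ 1`), not in `F b`, so in `F (!b)`, so `x ∉ X_(!b)` and `a ≠ 1`. (7) `a ≠ 1` has a right descent `i`; `i ∈ F (!b)` (`a ∈ W_(!b)`), `i ∉ K` so `i ∉ F b`; `i` is a right descent of `x' a`, so `x' a` has no right descent in `F b \ F (!b)`; for `s ∈ K ⊆ F (!b)`: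
`ℓ(x' a s) = ℓ(x') + ℓ(a s) = ℓ(x' a) + 1`. (8) `a ∈ W_K ∩ X_K` implies `a = 1` (uniqueness). (9)-(13) mirror images. -/
def B_1 : Prop := ∀ (S W H : Type) [Group W] [Ring H] [Algebra ℤ[T;T⁻¹] H] (X : AC S W H),
  (∀ b, par X.cs X.K ≤ par X.cs (X.F b)) ∧
  (∀ b g, g ∈ par X.cs (X.F b) → g ∈ par X.cs (X.F (!b)) → g ∈ par X.cs X.K) ∧
  (∀ b x, (XR X.cs (X.F b) x → XR X.cs X.K x) ∧ (XL X.cs (X.F b) x → XL X.cs X.K x)) ∧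
  (∀ x, XR X.cs X.K x → ∃ b, XR X.cs (X.F b) x) ∧
  (∀ b x, XR X.cs (X.F b) x → XR X.cs (X.F (!b)) x → x = 1) ∧
  (∀ b x, XR X.cs (X.F b) x → x ≠ 1 → ∃ x' a, x = x' * a ∧ XR X.cs (X.F (!b)) x' ∧ a ∈ par X.cs (X.F (!b)) ∧
    XR X.cs X.K a ∧ a ≠ 1 ∧ X.cs.length x = X.cs.length x' + X.cs.length a) ∧
  (∀ b x' a, XR X.cs (X.F (!b)) x' → a ∈ par X.cs (X.F (!b)) → XR X.cs X.K a → a ≠ 1 →
    XR X.cs (X.F b) (x' * a)) ∧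
  (∀ a, XR X.cs X.K a ∨ XL X.cs X.K a → a ∈ par X.cs X.K → a = 1) ∧
  (∀ y, XL X.cs X.K y → ∃ b, XL X.cs (X.F b) y) ∧
  (∀ b y, XL X.cs (X.F b) y → XL X.cs (X.F (!b)) y → y = 1) ∧
  (∀ b y, XL X.cs (X.F b) y → y ≠ 1 → ∃ a y', y = a * y' ∧ XL X.cs (X.F (!b)) y' ∧ a ∈ par X.cs (X.F (!b)) ∧
    XL X.cs X.K a ∧ a ≠ 1 ∧ X.cs.length y = X.cs.length a + X.cs.length y') ∧
  (∀ b y' a, XL X.cs (X.F (!b)) y' → a ∈ par X.cs (X.F (!b)) → XL X.cs X.K a → a ≠ 1 →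
    XL X.cs (X.F b) (a * y')) ∧
  (∀ b x, (XR X.cs (X.F b) x → XL X.cs (X.F b) x⁻¹) ∧ (XL X.cs (X.F b) x → XR X.cs (X.F b) x⁻¹))

/-- PACKET AM-B2 (1 h). From `G_P`, `B_1`. Reduced products.

PROOF. (1) Induction on `ℓ(y)` (for all `b`). `y = 1`: `x . g` reduced (`G_P`). `y ≠ 1`: `y = a y'`, `a ∈ W_(!b) ∩ Y_K`, `a ≠ 1`, `y' ∈ Y_(!b)` (`B_1`). `g = z k`, `z ∈ X_K`, `k ∈ W_K`, `z ∈ W_b` (factor of `g`), `z ≠ 1` since `g ∉ W_K`. `x z ∈ X_(!b)` (`B_1` (7)), `k a ∈ W_(!b)`, `k a ∉ W_K` (`a ∉ W_K` by `B_1` (8)).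
Induction for the type `!b` triple `(x z, k a, y')`: `ℓ(x g y) = ℓ(x z) + ℓ(k a) + ℓ(y') = ℓ(x) + ℓ(z) + ℓ(k) + ℓ(a) + ℓ(y')` (`k . a` reduced as `a ∈ Y_K`). (2) `x = 1`: `k . y` reduced (`y ∈ Y_K`). `x ≠ 1`: `x = x' a`, `a ∈ W_(!b) ∩ X_K`, `a ≠ 1`, `x' ∈ X_(!b)`: `(x', a k, y)` is a type `!b` triple
(`a k ∉ W_K`), (1): `ℓ(x') + ℓ(a k) + ℓ(y)`, `a . k` reduced. -/
def B_2 : Prop := ∀ (S W H : Type) [Group W] [Ring H] [Algebra ℤ[T;T⁻¹] H] (X : AC S W H),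
  (∀ b x g y, X.Tp b x g y →
    X.cs.length (x * g * y) = X.cs.length x + X.cs.length g + X.cs.length y) ∧
  (∀ b x k y, XR X.cs (X.F b) x → k ∈ par X.cs X.K → XL X.cs (X.F (!b)) y →
    X.cs.length (x * k * y) = X.cs.length x + X.cs.length k + X.cs.length y)

/-- PACKET AM-B3 (3 h). From `G_P`, `B_1`. Syllable length.

PROOF. Define inductively `Nf b n x` (`b : Bool`, `n : ℕ`, `x : W`): `Nf b 0 1`; if `Nf (!b) n x'`, `a ∈ W_(!b) ∩ X_K`, `a ≠ 1` then `Nf b (n+1) (x' a)`. `Nf b n x` implies `x ∈ X_b` (`B_1` (7)), and every `x ∈ X_b` has some `Nf b n x` (induction on `ℓ(x)`, `B_1` (6)). Uniqueness: `Nf b n x`, `Nf b' n' x` imply `n = n'`: if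
`x = 1` both are `0` (`a ≠ 1`, lengths add). If `x ≠ 1` then `b = b'` (`B_1` (5)) and the decomposition `x = x' a` (w.r.t. `F (!b)`) is unique; induction. Let `N(w) := n` if `w = x k`, `x ∈ X_K`, `k ∈ W_K`, `Nf b n x` (some `b`, `B_1` (4)); well-defined. Clear: `N(w k) = N(w)` (`k ∈ W_K`), `N(w) = 0` iff
`w ∈ W_K`, and for `x ∈ X_b`, `g = z k ∈ W_b \ W_K` (`z ∈ X_K`, `z ≠ 1`): `N(x g) = N(x) + 1` as `Nf (!b) (n+1) (x z)`. (2') `N(x g y) = N(x) + 1 + N(y)` for type `b` triples: induction on `ℓ(y)`: `y = 1` done; `y = a y'` (`B_1`), `(x z, k a, y')` is a type `!b` triple: `N(x g y) = N(x z) + 1 + N(y') = N(x) + 2 + N(y')`, and for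
`(1, a, y')`: `N(y) = 0 + 1 + N(y')`. (5') `N(k w) = N(w)`: `w = κ y`, `y ∈ Y_K`; `N(κ y) = N(y)` for all `κ ∈ W_K`: `y = 1` clear; `y ∈ Y_b`, `y = a y'`: `κ a ∈ W_(!b) \ W_K`, `N(κ y) = 1 + N(y')` by (2') for `(1, κ a, y')`. (6') `g ∈ W_b`: `N(g w) ≤ N(w) + 1`: `w = l y`, `l ∈ W_b`, `y ∈ Y_b`: `N(g l y) ≤ 1 + N(y)` and
`N(y) ≤ N(l y)` by (2'), (5'). So `w = g_1 ⋯ g_n k` implies `N(w) ≤ n`; and `w` has such a representation with `n = N(w)` (`Nf`). So `N = sl`. (4) `sl w⁻¹ = sl w`: invert a representation: `k⁻¹ g_n⁻¹ ⋯`: for `n ≥ 1` `k⁻¹ g_n⁻¹ ∈ W_b`. (7) from the definition: concatenate (`k g_1' ∈ W_b`; if the second list is empty, absorb).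
(3) `x = 1`: `sl (k y) = sl y`. `x ≠ 1`, `x = x' a`: type `!b` triple `(x', a k, y)`: `sl = sl x' + 1 + sl y`, `sl x = sl x' + 1` (triple `(x', a, 1)`). (8) `X_b ∋ x`, `l ∈ W_b`: if `l ∉ W_K` (2) with `y = 1`, else (5). -/
def B_3 : Prop := ∀ (S W H : Type) [Group W] [Ring H] [Algebra ℤ[T;T⁻¹] H] (X : AC S W H),
  (∀ w, X.sl w = 0 ↔ w ∈ par X.cs X.K) ∧
  (∀ b x g y, X.Tp b x g y → X.sl (x * g * y) = X.sl x + 1 + X.sl y) ∧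
  (∀ b x k y, XR X.cs (X.F b) x → k ∈ par X.cs X.K → XL X.cs (X.F (!b)) y → X.sl (x * k * y) = X.sl x + X.sl y) ∧
  (∀ w, X.sl w⁻¹ = X.sl w) ∧
  (∀ w, ∀ k ∈ par X.cs X.K, X.sl (w * k) = X.sl w ∧ X.sl (k * w) = X.sl w) ∧
  (∀ b, ∀ g ∈ par X.cs (X.F b), X.sl g ≤ 1) ∧
  (∀ u v, X.sl (u * v) ≤ X.sl u + X.sl v) ∧
  (∀ b x l, XR X.cs (X.F b) x → l ∈ par X.cs (X.F b) → l ∉ par X.cs X.K → X.sl (x * l) = X.sl x + 1) ∧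
  (∀ b y l, XL X.cs (X.F b) y → l ∈ par X.cs (X.F b) → l ∉ par X.cs X.K → X.sl (l * y) = X.sl y + 1)

/-- PACKET AM-B4 (1.5 h). From `G_P`, `B_1`. Moving a `W_K`-factor through.

PROOF. (1) Induction on `ℓ(u)` (for all `b`, `κ`). `u = 1`: `κ' = κ`, `u' = 1`, `Y_(!b) ⊆ Y_K`. `u ≠ 1`: `u = u₁ a`, `u₁ ∈ X_(!b)`, `a ∈ W_(!b) ∩ X_K`, `a ≠ 1` (`B_1`). `a κ ∈ W_(!b)` is `κ₁ w`, `κ₁ ∈ W_K`, `w ∈ Y_K`; `w ∈ W_(!b)` and `w ≠ 1` (`a ∉ W_K`). Induction for `(!b, u₁, κ₁)`: `u₁ κ₁ = κ' u₁'` with `u₁' v' ∈ Y_K` for all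
`v' ∈ Y_b`. `u' := u₁' w`. For `v ∈ Y_(!b)`: `w v ∈ Y_b` (`B_1` (12), for `!b`), so `u' v = u₁' (w v) ∈ Y_K`. (2) Induction on `ℓ(u)`. `u = 1`: then `c = !b`: `l = κ`, `u' = 1`. `u = u₁ a`, `a κ = κ₁ w` as before. If `u₁ ≠ 1` or `c = b = !(!b)`: induction for `(!b, c, u₁, κ₁)`: `u₁ κ₁ = l u₁'`, `u₁' v' ∈ Y_c` for all `v' ∈ Y_b`; `u' := u₁' w`,
`u' v = u₁' (w v)`, `w v ∈ Y_b`. If `u₁ = 1` and `c = !b`: `l := κ₁ w = a κ ∈ W_(!b) = W_c`, `u' := 1`, and `v ∈ Y_(!b) = Y_c`. (3) mirror image of (1). -/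
def B_4 : Prop := ∀ (S W H : Type) [Group W] [Ring H] [Algebra ℤ[T;T⁻¹] H] (X : AC S W H),
  (∀ b u κ, XR X.cs (X.F b) u → κ ∈ par X.cs X.K → ∃ κ' ∈ par X.cs X.K, ∃ u', u * κ = κ' * u' ∧
    ∀ v, XL X.cs (X.F (!b)) v → XL X.cs X.K (u' * v)) ∧
  (∀ b c u κ, XR X.cs (X.F b) u → κ ∈ par X.cs X.K → (u ≠ 1 ∨ c = !b) → ∃ l ∈ par X.cs (X.F c), ∃ u', u * κ = l * u' ∧
    ∀ v, XL X.cs (X.F (!b)) v → XL X.cs (X.F c) (u' * v)) ∧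
  (∀ b u κ, XL X.cs (X.F b) u → κ ∈ par X.cs X.K → ∃ κ' ∈ par X.cs X.K, ∃ u', κ * u = u' * κ' ∧
    ∀ v, XR X.cs (X.F (!b)) v → XR X.cs X.K (v * u'))

/-- PACKET AM-B5 (2 h). From `G_P`, `A_P`, `B_1`, `B_2`. The function `a'`, in the form `Ge m w` (`a'(w) ≥ m`).

PROOF. (1) `w = u₁ g u₂` reduced, `u . w` reduced: `u w = (u u₁) g u₂`, and `ℓ(u u₁) = ℓ(u) + ℓ(u₁)` is forced; same on the right. (2) `←`: `u = u' = 1`. `→`: `w = u g u'` reduced, `w ∈ W_b`: `u, g, u' ∈ W_b` (`G_P`), `α g ≤ α (u g) ≤ α (u g u')` (`A_P`; lengths add). (3) `w = u g u'`, `g ∈ W_b`, `m ≤ α g`. `u = x u₁`, `x ∈ X_b`, `u₁ ∈ W_b`; `u' = u₂ y`, `u₂ ∈ W_b`,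
`y ∈ Y_b`; all products reduced, `g' := u₁ g u₂ ∈ W_b`, `α g' ≥ α g` (`A_P`). If `g' ∉ W_K`: done. If `g' ∈ W_K`: if `x = y = 1`: `w = g' ∈ W_K`. If `x ≠ 1`: `x = x' a` (`B_1`), `x' ∈ X_(!b)`, `a ∈ W_(!b)`, `a ∉ W_K`. If `y = 1`: `(x', a g', 1)` is a type `!b` triple, `α (a g') ≥ α g'` (`a . g'` reduced). If `y ≠ 1`: `y = c y'`, `y' ∈ Y_(!b)`, `c ∈ W_(!b)`:
`(x', a g' c, y')`; `w = x' . a . g' . c . y'` is reduced (`ℓ(w)` is the sum), so `a . g' . c` is reduced, `α (a g' c) ≥ α g'`, and `a g' c ∉ W_K` (else its reduced factor `a ∈ W_K`). If `x = 1`, `y ≠ 1`: symmetric. (4) `Ge 0 w`: `u = w`, `g = u' = 1` (`α` is a natural number). Bounded: `α ≤ N` on both `W_b` (`A_P`). Inverses: `w⁻¹ = u'⁻¹ g⁻¹ u⁻¹`, `α g⁻¹ = α g` (`A_P`).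
(5) `x . g`, `g . y` are reduced (`G_P`), `g ∈ W_b` for some `b` (`W_K ≤ W_b`). -/
def B_5 : Prop := ∀ (S W H : Type) [Group W] [Ring H] [Algebra ℤ[T;T⁻¹] H] (X : AC S W H),
  (∀ m u w, X.cs.length (u * w) = X.cs.length u + X.cs.length w → X.Ge m u ∨ X.Ge m w → X.Ge m (u * w)) ∧
  (∀ b, ∀ w ∈ par X.cs (X.F b), ∀ m, X.Ge m w ↔ m ≤ X.α w) ∧
  (∀ m w, X.Ge m w → (w ∈ par X.cs X.K ∧ m ≤ X.α w) ∨ ∃ b x g y, X.Tp b x g y ∧ w = x * g * y ∧ m ≤ X.α g) ∧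
  (∀ w, X.Ge 0 w) ∧ (∀ m m' w, m' ≤ m → X.Ge m w → X.Ge m' w) ∧ (∃ N, ∀ w, ¬ X.Ge (N + 1) w) ∧
  (∀ m w, X.Ge m w ↔ X.Ge m w⁻¹) ∧
  (∀ x g y, X.Adm x g y → X.Ge (X.α g) (x * g) ∧ X.Ge (X.α g) (g * y) ∧ X.Ge (X.α g) g)

/-- PACKET AM-B6 (2 h). From `G_P`, `A_P`, `B_1`, `B_5`. `a'(x l) = max(α(l), a'(x LK(l)))` for `x ∈ X_b`, `l ∈ W_b`.

PROOF. `l = κ y₁`, `κ ∈ W_K`, `y₁ ∈ Y_K`. If `l ∈ W_K` then `y₁ = 1` (`B_1` (8)) and the claim is trivial. Let `l ∉ W_K`, `l = z k`, `z ∈ X_K`, `k ∈ W_K`, `z ≠ 1`, `x z ∈ X_(!b)` (`B_1`). Let `w = x l = u g u'` reduced, `g ∈ W_c`, `m ≤ α g`. Induction on `ℓ(u')` (for all `x, l`, `b` fixed). `u' = 1`, `c = b`: `u = x₂ l₂`, `x₂ ∈ X_b`, `l₂ ∈ W_b`: `w = x₂ (l₂ g)`, so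
`x₂ = x`, `l = l₂ g`, and `ℓ(l) = ℓ(l₂) + ℓ(g)`; `α l ≥ α g ≥ m`. `u' = 1`, `c = !b`: `u = x₂ l₂` with respect to `F (!b)`: `w = x₂ (l₂ g) = (x z) k` with `x z ∈ X_(!b)`, `k ∈ W_K ≤ W_(!b)`: so `k = l₂ g` (reduced), `α k ≥ m`, and `α l ≥ α k` (`z . k` reduced, in `W_b`). `u' ≠ 1`: let `i` be a right descent of `u'`, `u' = u'' s_i`; `i` is a right descent of `w`. If `i ∉ F b`: then
`i ∈ F (!b)`, and as `w = (x z) k`, `x z ∈ X_(!b)`, `i` is a right descent of `k ∈ W_K`, so `i ∈ K ⊆ F b`, contradiction. So `i ∈ F b`, `i` is a right descent of `l` (`x ∈ X_b`), `l = l₁ s_i` reduced, `w s_i = x l₁ = u g u''` reduced. Write `l₁ = κ₁ y₂` (`κ₁ ∈ W_K`, `y₂ ∈ Y_K`). Induction: `m ≤ α l₁ ≤ α l`, done, or `Ge m (x κ₁)`. In the second case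
`y₂ s_i = κ₂ y₃` (`κ₂ ∈ W_K`, `y₃ ∈ Y_K`), `l = (κ₁ κ₂) y₃`, so `κ = κ₁ κ₂`, `y₁ = y₃`; `ℓ(l) = ℓ(κ₁) + ℓ(y₂) + 1 ≥ ℓ(κ₁) + ℓ(y₂ s_i) = ℓ(κ₁) + ℓ(κ₂) + ℓ(y₃) ≥ ℓ(κ) + ℓ(y₁) = ℓ(l)`, so `ℓ(κ) = ℓ(κ₁) + ℓ(κ₂)`, `x κ = (x κ₁) κ₂` is reduced, `Ge m (x κ)` by `B_5` (1). (2) mirror image (`B_5`: `Ge m w ↔ Ge m w⁻¹`, `α g⁻¹ = α g`). -/
def B_6 : Prop := ∀ (S W H : Type) [Group W] [Ring H] [Algebra ℤ[T;T⁻¹] H] (X : AC S W H),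
  (∀ b x κ y, XR X.cs (X.F b) x → κ ∈ par X.cs X.K → XL X.cs X.K y → κ * y ∈ par X.cs (X.F b) → ∀ m,
    X.Ge m (x * (κ * y)) → m ≤ X.α (κ * y) ∨ X.Ge m (x * κ)) ∧
  (∀ b x κ y, XR X.cs X.K x → κ ∈ par X.cs X.K → XL X.cs (X.F b) y → x * κ ∈ par X.cs (X.F b) → ∀ m,
    X.Ge m (x * κ * y) → m ≤ X.α (x * κ) ∨ X.Ge m (κ * y))

/-- PACKET AM-B7 (1.5 h). From `G_P`, `A_O`, `A_P`, `B_1`, `B_5`, `B_6`. `a'` and the preorders.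

PROOF. (1), (2) by a joint induction on `ℓ(x)`: first (2) for `x`, then (1) for `x`. (2): `x ∈ X_b` for some `b` (`B_1` (4)). `x = 1`: `Ge m κ` iff `m ≤ α κ` (`B_5` (2)), `α κ ≤ α κ'` (`A_P`), `κ' ∈ W_K`. `x ≠ 1`: `x = x' a`, `x' ∈ X_(!b)`, `a ∈ W_(!b) ∩ X_K` (`B_1`), `leR (F (!b)) (a κ') (a κ)` by `A_O` (3) (`K ⊆ F (!b)`, `a ∈ X_K`); (1) for
`(!b, x', a κ, a κ')`, `ℓ(x') < ℓ(x)`. (1): `l = κ y`, `l' = κ' y'` (`κ, κ' ∈ W_K`, `y, y' ∈ Y_K`); `leR (F b) l' l` gives `l' ∈ W_b`, `α l ≤ α l'` (`A_P`) and `leR K κ' κ` (`A_O` (4)). `Ge m (x l)`: by `B_6` `m ≤ α l ≤ α l'`: `Ge m l'` (`B_5` (2)) and `x . l'` reduced: `Ge m (x l')`; or `Ge m (x κ)`: by (2) `Ge m (x κ')`, and `x l' = (x κ') y'` is reduced: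
`ℓ(x l') = ℓ(x) + ℓ(κ') + ℓ(y')`. (3), (4) mirror images. -/
def B_7 : Prop := ∀ (S W H : Type) [Group W] [Ring H] [Algebra ℤ[T;T⁻¹] H] (X : AC S W H) (m : ℕ),
  (∀ b x l l', XR X.cs (X.F b) x → l ∈ par X.cs (X.F b) → X.leR (X.F b) l' l → X.Ge m (x * l) → X.Ge m (x * l')) ∧
  (∀ x κ κ', XR X.cs X.K x → κ ∈ par X.cs X.K → X.leR X.K κ' κ → X.Ge m (x * κ) → X.Ge m (x * κ')) ∧
  (∀ b y l l', XL X.cs (X.F b) y → l ∈ par X.cs (X.F b) → X.leL (X.F b) l' l → X.Ge m (l * y) → X.Ge m (l' * y)) ∧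
  (∀ y κ κ', XL X.cs X.K y → κ ∈ par X.cs X.K → X.leL X.K κ' κ → X.Ge m (κ * y) → X.Ge m (κ' * y))

/-- PACKET AM-B8 (2 h). From `G_P`, `B_1`, `B_3`. The chain of prefixes.

PROOF. (1) `w = x l = x' l'`, types `b`, `b'`. `b = b'`: uniqueness of decompositions. `b' = !b`: `l = z k`, `z ∈ X_K`, `z ≠ 1`, `k ∈ W_K`, `x z ∈ X_(!b)` (`B_1` (7)); `w = (x z) k = x' l'` are both decompositions with respect to `F (!b)`, so `l' = k ∈ W_K`, contradiction. (2) `B_3` (8). (3) Induction on `ℓ(y)`: `y = 1`: one step. `y ≠ 1`: `y = a y'` (`B_1`), `g = z k` as before: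
`(x z, k a, y')` is a type `!b` triple with the same product, so `TransGen Rc (x z) w`; and `Rc x (x z)` (`z ∈ W_b`, `z ∉ W_K`). (4) Induction on `TransGen` (head fixed): `Rc x x'`, `x' ∈ X_b`: `x' ≠ 1` (`sl x' ≥ 1`); `x' = x'' a`, `x'' ∈ X_(!b)`, `a ∈ W_(!b) ∩ X_K`, `a ≠ 1`, so `Rc x'' x'` and `x'' = x` by (1): `x⁻¹ x' = a ∈ X_b` (`B_1` (7) with `x' = 1`; `1 ∈ X_(!b)`).
`TransGen Rc x x₁`, `Rc x₁ x'`: again `x' = x₁ a` with `x₁ ∈ X_(!b)`; by induction `x⁻¹ x₁ ∈ X_(!b)`, so `x⁻¹ x' = (x⁻¹ x₁) a ∈ X_b`. It is `≠ 1` because `sl x < sl x'` (2). (5) Both chains start from `w` and `Rc` is functional by (1): `x = x'`, or `TransGen Rc x x'`, or `TransGen Rc x' x`; use (2). -/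
def B_8 : Prop := ∀ (S W H : Type) [Group W] [Ring H] [Algebra ℤ[T;T⁻¹] H] (X : AC S W H),
  (∀ x x' w, X.Rc x w → X.Rc x' w → x = x') ∧
  (∀ x w, X.Rc x w → X.sl w = X.sl x + 1) ∧
  (∀ b x g y, X.Tp b x g y → Relation.TransGen X.Rc x (x * g * y)) ∧
  (∀ b x x', Relation.TransGen X.Rc x x' → XR X.cs (X.F b) x' → XR X.cs (X.F b) (x⁻¹ * x') ∧ x⁻¹ * x' ≠ 1) ∧
  (∀ x x' w, Relation.TransGen X.Rc x w → Relation.TransGen X.Rc x' w →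
    (X.sl x = X.sl x' → x = x') ∧ (X.sl x < X.sl x' → Relation.TransGen X.Rc x x'))

/-- PACKET AM-B9 (1.5 h). From `G_P`, `B_1`, `B_2`, `B_4`, `B_5`, `B_8`. Comparison of two triples of the same element.

PROOF. Let `w = x g y = x' g' y'`, types `b`, `b'`. (1) `sl x = sl x'`: by `B_8` (3), (5) `x = x'`. So `g y = g' y'`. If `b = b'`: uniqueness (`g ∈ W_b`, `y ∈ Y_b`). If `b' = !b`: `g = κ a`, `κ ∈ W_K`, `a ∈ Y_K`, `a ∈ W_b`, `a ≠ 1`; `a y ∈ Y_(!b)` (`B_1` (12)); so `g y = κ (a y)` and `g' y'` are decompositions with respect to `F (!b)`: `g' = κ ∈ W_K`, contradiction.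
(2) `sl x < sl x'`: `TransGen Rc x w`, `TransGen Rc x' w` (`B_8` (3)), so `TransGen Rc x x'` and `u := x⁻¹ x' ∈ X_(b')`, `u ≠ 1` (`B_8` (4)). `g' = κ' β'`, `β' ∈ W_(b')`, `β' ≠ 1` (`g' ∉ W_K`), `v := β' y' ∈ Y_(!b')` (`B_1` (12)). `g y = x⁻¹ w = u κ' v`. By `B_4` (2) with `c = b`: `u κ' = l u'`, `l ∈ W_b`, `u' v ∈ Y_b`, `u' = u' 1 ∈ Y_b`. So `g y = l (u' v)`, `g = l`
(uniqueness), and `x' κ' = x u κ' = x g u'`, with `(x, g, u')` a type `b` triple, so it is reduced (`B_2`), and `Ge (α g) (x' κ')`; then `B_5` (5th clause) for `m ≤ α g`. -/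
def B_9 : Prop := ∀ (S W H : Type) [Group W] [Ring H] [Algebra ℤ[T;T⁻¹] H] (X : AC S W H)
    (b b' : Bool) (x g y x' g' y' : W), X.Tp b x g y → X.Tp b' x' g' y' → x * g * y = x' * g' * y' →
  (X.sl x = X.sl x' → x = x' ∧ g = g' ∧ y = y' ∧ b = b') ∧
  (X.sl x < X.sl x' → ∀ κ' β', κ' ∈ par X.cs X.K → XL X.cs X.K β' → g' = κ' * β' → ∀ m, m ≤ X.α g → X.Ge m (x' * κ'))

end Pool.Agent.Helper45.AM
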