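import Pool.Agent.Helper45.AM.GoalsE
import Pool.Agent.Helper15.RA.GoalsH

/-!
# Project AM (MP_cc6379_al): assembly of the parts C, D, E: the amalgam satisfies (B), P1, P4, P8, (U).
-/

set_option autoImplicit false

open LaurentPolynomial Pool.Agent.Helper15.RA

noncomputable section

namespace Pool.Agent.Helper45.AM

section

variable {S W H : Type} [Group W] [Ring H] [Algebra ℤ[T;T⁻¹] H] (X : AC S W H)

theorem mem_univ_par {S W : Type} [Group W] {M : CoxeterMatrix S} (cs : CoxeterSystem M W) (w : W) :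
    w ∈ par cs Set.univ := by
  unfold par
  rw [Set.image_univ, cs.subgroup_closure_range_simple]
  trivial

/-! ## Part C -/

theorem c_all (c3 : C_3) (c7 : C_7) (n : ℕ) : X.SB n ∧ X.SA (n + 1) := by
  induction n with
  | zero =>
    have h0 : X.SB 0 := fun M x g y _ h => absurd h (Nat.not_lt_zero _)
    exact ⟨h0, c3 S W H X 0 h0⟩
  | succ n ih =>
    have h1 := c7 S W H X n ih.1 ih.2
    exact ⟨h1, c3 S W H X (n + 1) h1⟩

theorem sb_all (c3 : C_3) (c7 : C_7) (n : ℕ) : X.SB n := (c_all X c3 c7 n).1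

theorem sa_all (c3 : C_3) (c7 : C_7) (n : ℕ) : X.SA n := by
  rcases n with _ | n
  · exact fun M w h => absurd h (Nat.not_lt_zero _)
  · exact (c_all X c3 c7 n).2

/-! ## Part D -/

theorem nn_of_cc (d6 : D_6) (d7 : D_7) (hB : X.D.Bdd) {M n : ℕ} (hC : X.CC M n) : X.NN M n :=
  d7 S W H X M n hB (d6 S W H X M n hB hC)

theorem cc_all (d6 : D_6) (d7 : D_7) (d8 : D_8) (hB : X.D.Bdd) (hA : ∀ n, X.SA n) (M n : ℕ) : X.CC M n := by
  induction n with
  | zero => exact fun u h => absurd h (Nat.not_lt_zero _)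
  | succ n ih =>
    intro u hu hG
    rcases Nat.lt_succ_iff_lt_or_eq.1 hu with h | h
    · exact ih u h hG
    · have hN : X.NN M (X.sl u) := by
        rw [h]
        exact nn_of_cc X d6 d7 hB ih
      exact (d8 S W H X M hA u hG hN).1

theorem nn_all (d6 : D_6) (d7 : D_7) (d8 : D_8) (hB : X.D.Bdd) (hA : ∀ n, X.SA n) (M n : ℕ) : X.NN M n :=
  nn_of_cc X d6 d7 hB (cc_all X d6 d7 d8 hB hA M n)

/-! ## The function `a'` -/

theorem exists_aa (b5 : B_5) (w : W) : ∃ m, ¬ X.Ge (m + 1) w := by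
  obtain ⟨-, -, -, -, -, ⟨N, hN⟩, -, -⟩ := b5 S W H X
  exact ⟨N, hN w⟩

open Classical in
/-- the function `a'` -/
def aa (b5 : B_5) (w : W) : ℕ := Nat.find (exists_aa X b5 w)

theorem ge_iff (b5 : B_5) (m : ℕ) (w : W) : X.Ge m w ↔ m ≤ aa X b5 w := by
  classical
  obtain ⟨-, -, -, h0, hmono, -, -, -⟩ := b5 S W H X
  constructor
  · intro h
    by_contra hlt
    push Not at hlt
    exact Nat.find_spec (exists_aa X b5 w) (hmono m _ w hlt h)
  · intro h
    refine hmono (aa X b5 w) m w h ?_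
    rcases Nat.eq_zero_or_pos (aa X b5 w) with h1 | h1
    · rw [h1]
      exact h0 w
    · obtain ⟨k, hk⟩ := Nat.exists_eq_succ_of_ne_zero h1.ne'
      by_contra hc
      have h3 : aa X b5 w ≤ k := Nat.find_min' (exists_aa X b5 w) (by rwa [hk] at hc)
      omega

/-! ## The final assembly -/

theorem pg_univ (h2 : H_2) (b5 : B_5) (c3 : C_3) (c7 : C_7) (c8 : C_8) (d6 : D_6) (d7 : D_7) (d8 : D_8)
    (e2 : E_2) (e3 : E_3) (e6 : E_6) (e7 : E_7) : PG X.D X.h Set.univ (aa X b5) := by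
  classical
  have hSA := sa_all X c3 c7
  have hSB := sb_all X c3 c7
  have hB := c8 S W H X hSB
  have hCC := cc_all X d6 d7 d8 hB hSA
  have hNN := nn_all X d6 d7 d8 hB hSA
  have hnot : ∀ z, ¬ X.Ge (aa X b5 z + 1) z := fun z h => by
    rw [ge_iff X b5] at h
    omega
  have hyes : ∀ z, X.Ge (aa X b5 z) z := fun z => (ge_iff X b5 _ _).2 le_rfl
  have p4 : ∀ x y z, X.h x y z ≠ 0 → aa X b5 x ≤ aa X b5 z ∧ aa X b5 y ≤ aa X b5 z := fun x y z h =>
    ⟨(ge_iff X b5 _ _).1 (e2 S W H X hNN hCC _ x y z (Or.inl (hyes x)) h),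
      (ge_iff X b5 _ _).1 (e2 S W H X hNN hCC _ x y z (Or.inr (hyes y)) h)⟩
  have p8 : ∀ x y z, (X.h x y z).coeff (aa X b5 z) ≠ 0 → aa X b5 x = aa X b5 z ∧ aa X b5 y = aa X b5 z := by
    intro x y z h
    obtain ⟨h3, h4⟩ := (e3 S W H X hSB hNN hCC _ x y z (hnot z)).2 h
    have h5 : X.h x y z ≠ 0 := fun h6 => by
      rw [h6] at h
      exact h rfl
    rw [ge_iff X b5] at h3 h4
    exact ⟨le_antisymm (p4 x y z h5).1 h3, le_antisymm (p4 x y z h5).2 h4⟩
  have hu := e7 W X.h (aa X b5) X.sl (fun x y z h => (p8 x y z h).1) (fun z => by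
    obtain ⟨-, lam, hl, h1, h0⟩ := e6 S W H X hSB hNN hCC _ z (hyes z) (hnot z)
    refine ⟨lam, fun p hp => ?_, h1, fun u hu hne hsl => h0 u ?_ hne hsl⟩
    · obtain ⟨ha, hb⟩ := hl p hp
      rw [ge_iff X b5] at ha hb
      omega
    · rw [← hu]
      exact hnot u)
  refine ⟨?_, fun x _ y _ z _ => (e3 S W H X hSB hNN hCC _ x y z (hnot z)).1, fun z _ => ?_, fun z _ => ?_,
    fun x _ y _ z _ => p4 x y z, fun x _ y _ z _ => p8 x y z, fun g _ => ?_⟩
  · obtain ⟨N, hN⟩ := hB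
    exact ⟨N, fun x _ y _ z => hN x y z⟩
  · obtain ⟨⟨x, y, hxy⟩, -⟩ := e6 S W H X hSB hNN hCC _ z (hyes z) (hnot z)
    exact ⟨x, mem_univ_par _ x, y, mem_univ_par _ y, hxy⟩
  · rcases Nat.eq_zero_or_pos (aa X b5 z) with h1 | h1
    · rw [h1]
      obtain ⟨-, -, -, g1, -, g2, -⟩ := h2 S W H X.M X.cs X.L X.wt X.D
      by_cases hz : z = 1
      · subst hz
        rw [g1]
        exact DegLE.one (by simp)
      · exact (g2 z 1 (Ne.symm hz)).mono (by simp)
    · obtain ⟨k, hk⟩ := Nat.exists_eq_succ_of_ne_zero h1.ne'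
      have := (d8 S W H X k hSA z (by rw [← Nat.succ_eq_add_one, ← hk]; exact hyes z) (hNN k _)).2
      rw [hk]
      refine this.mono ?_
      push_cast
      omega
  · obtain ⟨lam, h1, h0⟩ := hu g
    refine ⟨lam, fun p _ => ⟨mem_univ_par _ _, mem_univ_par _ _⟩, fun z _ => ?_⟩
    split_ifs with hz
    · rw [hz]
      exact h1
    · exact h0 z hz

end

/-- all the goals used in the assembly of parts A-E -/
theorem gm (h2 : H_2) (b5 : B_5) (c3 : C_3) (c7 : C_7) (c8 : C_8) (d6 : D_6) (d7 : D_7) (d8 : D_8)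
    (e2 : E_2) (e3 : E_3) (e6 : E_6) (e7 : E_7) : GM := fun _ _ _ _ _ _ X =>
  ⟨aa X b5, pg_univ X h2 b5 c3 c7 c8 d6 d7 d8 e2 e3 e6 e7⟩

end Pool.Agent.Helper45.AM
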