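import Pool.Agent.Helper45.AM.Defs

/-!
# Project AM (MP_cc6379_al): goals, part A. Relative Kazhdan-Lusztig theory, the ring `J_P`, relative P1.

Notation. `X : Base S W H` (a Hecke algebra with all its data), `P ⊆ S`, `W_P = par X.cs P`, `X_P = {x | XR X.cs P x}`
(minimal representatives of `W/W_P`), `Y_P = {y | XL X.cs P y}` (of `W_P\W`), `ℓ = X.cs.length`, `T_w = X.D.t w`,
`c_w = X.D.c w`, `X.D.t.repr` and `X.b.repr` the coordinates in the bases `T` and `c`, `DegLE k p` means `deg p ≤ k`,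
`z ≤_L w` (in `W_P`) is `X.leL P z w`, `z ≤_R w` is `X.leR P z w`, `z ~_L w` is `X.eqL P z w`, `z ~_R w` is `X.eqR P z w`. Every `w` is `x g` with unique
`x ∈ X_P`, `g = RK(w) ∈ W_P`, and `g y` with unique `g = LK(w) ∈ W_P`, `y ∈ Y_P`, and `ℓ` is additive (`G_P` stands for the facts `G_PA`, `G_PB`, `G_PC` of
`Pool.Agent.Helper15.AM.GoalsG`, proofs in progress: take those you use as hypotheses; they are for `cs := X.cs`). `X.b w = c_w` (`X.hb`), `X.h x y = X.b.repr (c_x * c_y)` (from `X.isH`).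
The general facts `H_1, H_2, H_3, H_J, H_V` on Hecke algebras are proved: `Pool.Agent.Helper15.RA.g_h1` etc. in
`Pool.Agent.Helper15.RA.All`.
-/

set_option autoImplicit false

open LaurentPolynomial Pool.Agent.Helper15.RA

noncomputable section

namespace Pool.Agent.Helper45.AM

variable {S W H : Type} [Group W] [Ring H] [Algebra ℤ[T;T⁻¹] H]

/-- PACKET AM-AB (1.5 h). From `H_1`, `H_2`, `H_3`. The basis `c`, and products whose lengths add.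

PROOF. `X.b.repr (c_x c_y) = h x y`: apply `X.b.repr` to `X.isH`. The basis of `H_3` equals `X.b` (same values), so
`X.b.repr (T_w) w = 1`, the other coordinates have degree `≤ -1` and are supported in lengths `< ℓ(w)`. The last clause: `ℓ(x y) = ℓ(x) + ℓ(y)`:
`c_x c_y = T_x T_y + ` (products `p q T_u T_v` with `ℓ(u) + ℓ(v) < ℓ(x) + ℓ(y)`, by `H_2`), `T_x T_y = T_(x y)`, and `T_u T_v` is supported in lengths
`≤ ℓ(u) + ℓ(v)` (`H_1`). So `c_x c_y = T_(x y) + (lengths < ℓ(x y))`, and the `c_(x y)`-coordinate is `1` (first part). Degrees of the coordinates of a `Z`: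
if all `T`-coordinates of `Z` have degree `≤ k` then so have all `c`-coordinates, and conversely (the transition matrices are in `ℤ[v⁻¹]`). -/
def A_B : Prop := ∀ (S W H : Type) [Group W] [Ring H] [Algebra ℤ[T;T⁻¹] H] (X : Base S W H),
  (∀ x y, X.b.repr (X.D.c x * X.D.c y) = X.h x y) ∧
  (∀ w, X.b.repr (X.D.t w) w = 1) ∧
  (∀ w y, y ≠ w → DegLE (-1) (X.b.repr (X.D.t w) y)) ∧
  (∀ w y, X.b.repr (X.D.t w) y ≠ 0 → y = w ∨ X.cs.length y < X.cs.length w) ∧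
  (∀ (k : ℤ) (Z : H), (∀ w, DegLE k (X.D.t.repr Z w)) ↔ ∀ w, DegLE k (X.b.repr Z w)) ∧
  (∀ x y, X.cs.length (x * y) = X.cs.length x + X.cs.length y → X.h x y (x * y) = 1)

/-- PACKET AM-AS (2 h). From `G_P`, `H_1`, `H_2`, `H_3`, `A_B`. Supports in parabolic subgroups.

PROOF. (1) `g ∈ W_P`: `T_g T_w` is supported in `W_P w` and `T_w T_g` in `w W_P`: induction on `ℓ(g)`, `g = s_i g'` reduced, `i ∈ P`, `g' ∈ W_P` (`G_P`); `T_(s_i) T_u` is a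
combination of `T_u`, `T_(s_i u)` (`H_1`). (2) `bar T_g`, `g ∈ W_P`: induction on `ℓ(g)`, `bar T_(s_i g') = (T_(s_i) - ξ_i) bar T_(g')` (`bar` is multiplicative, `bar T_(s_i) = T_(s_i) - ξ_i` from
`bar_t` and `quad`, see `H_2`). (3) `c_g`, `g ∈ W_P`: if some `y ∉ W_P` has a nonzero `T_y`-coordinate `p_y`, take one of maximal length; in `bar c_g = ∑ invert(p_u) bar T_u` the
coefficient of `T_y` is `invert p_y` (terms `u ∈ W_P`: (2); terms `u ∉ W_P`, `u ≠ y`, have `ℓ(u) ≤ ℓ(y)`: `H_2`); so `p_y = invert p_y`, degree `≤ -1`, `p_y = 0` (`eq_zero_of_invert`). (4) An element with `T`-support in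
`W_P` has `c`-support in `W_P` (subtract `coefficient • c_y` for the longest `y` of the support) and conversely by (3). So `h x y z ≠ 0`, `x, y ∈ W_P` implies `z ∈ W_P`.
(5) `pr P` is additive, `A`-linear, is the identity on elements supported in `W_P`, has its values there, and `pr(Z Z') = pr(Z) Z'`, `pr(Z' Z) = Z' pr(Z)` if `Z'` is supported in `W_P`: for
`Z = T_w`, `Z' = T_g`: if `w ∉ W_P` then `w W_P` and `W_P w` are disjoint from `W_P`, by (1). -/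
def A_S : Prop := ∀ (S W H : Type) [Group W] [Ring H] [Algebra ℤ[T;T⁻¹] H] (X : Base S W H) (P : Set S),
  (∀ g ∈ par X.cs P, ∀ w z, X.D.t.repr (X.D.t g * X.D.t w) z ≠ 0 → z * w⁻¹ ∈ par X.cs P) ∧
  (∀ g ∈ par X.cs P, ∀ w z, X.D.t.repr (X.D.t w * X.D.t g) z ≠ 0 → w⁻¹ * z ∈ par X.cs P) ∧
  (∀ g ∈ par X.cs P, ∀ z, X.D.t.repr (X.D.bar (X.D.t g)) z ≠ 0 → z ∈ par X.cs P) ∧
  (∀ g ∈ par X.cs P, ∀ z, X.D.t.repr (X.D.c g) z ≠ 0 → z ∈ par X.cs P) ∧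
  (∀ g ∈ par X.cs P, ∀ z, X.b.repr (X.D.t g) z ≠ 0 → z ∈ par X.cs P) ∧
  (∀ x ∈ par X.cs P, ∀ y ∈ par X.cs P, ∀ z, X.h x y z ≠ 0 → z ∈ par X.cs P) ∧
  (∀ Z : H, (∀ z, X.D.t.repr Z z ≠ 0 → z ∈ par X.cs P) ↔ ∀ z, X.b.repr Z z ≠ 0 → z ∈ par X.cs P) ∧
  (∀ Y Z : H, X.pr P (Y + Z) = X.pr P Y + X.pr P Z) ∧ (∀ (p : ℤ[T;T⁻¹]) (Z : H), X.pr P (p • Z) = p • X.pr P Z) ∧
  (∀ Z : H, (∀ z, X.D.t.repr Z z ≠ 0 → z ∈ par X.cs P) → X.pr P Z = Z) ∧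
  (∀ (Z : H) (z : W), X.D.t.repr (X.pr P Z) z ≠ 0 → z ∈ par X.cs P ∧ X.D.t.repr (X.pr P Z) z = X.D.t.repr Z z) ∧
  (∀ (Z : H) (z : W), z ∈ par X.cs P → X.D.t.repr (X.pr P Z) z = X.D.t.repr Z z) ∧
  (∀ Z Z' : H, (∀ z, X.D.t.repr Z' z ≠ 0 → z ∈ par X.cs P) →
    X.pr P (Z * Z') = X.pr P Z * Z' ∧ X.pr P (Z' * Z) = Z' * X.pr P Z)

/-- PACKET AM-AM (1 h). From `H_V`, `A_B`. Mirror images.

PROOF. `H_V` gives the linear map `F`, `F(T_w) = T_(w⁻¹)`, `F(c_w) = c_(w⁻¹)`, `F(Y Z) = F(Z) F(Y)`, and `h x y z = h y⁻¹ x⁻¹ z⁻¹`. `X.D.t.repr (F Z) w = X.D.t.repr Z w⁻¹` and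
`X.b.repr (F Z) w = X.b.repr Z w⁻¹` by linearity. `XL P y ↔ XR P y⁻¹` and `ℓ(w⁻¹) = ℓ(w)`: `(s_i y)⁻¹ = y⁻¹ s_i`. `leR ↔ leL`: the steps correspond (`u ∈ W_P` iff `u⁻¹ ∈ W_P`). -/
def A_M : Prop := ∀ (S W H : Type) [Group W] [Ring H] [Algebra ℤ[T;T⁻¹] H] (X : Base S W H),
  (∃ F : H →ₗ[ℤ[T;T⁻¹]] H, (∀ w, F (X.D.t w) = X.D.t w⁻¹) ∧ (∀ Y Z, F (Y * Z) = F Z * F Y) ∧
    (∀ w, F (X.D.c w) = X.D.c w⁻¹) ∧ (∀ Z w, X.D.t.repr (F Z) w = X.D.t.repr Z w⁻¹) ∧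
    (∀ Z w, X.b.repr (F Z) w = X.b.repr Z w⁻¹)) ∧
  (∀ x y z, X.h x y z = X.h y⁻¹ x⁻¹ z⁻¹) ∧
  (∀ P y, XL X.cs P y ↔ XR X.cs P y⁻¹) ∧ (∀ P y, XR X.cs P y ↔ XL X.cs P y⁻¹) ∧
  (∀ P z w, X.leR P z w ↔ X.leL P z⁻¹ w⁻¹) ∧ (∀ P z w, X.leL P z w ↔ X.leR P z⁻¹ w⁻¹)

/-- PACKET AM-AK (3 h). From `G_P`, `H_1`, `H_2`, `A_B`, `A_S`. The relative Kazhdan-Lusztig basis (Geck).

PROOF. For `w = x g`, `x ∈ X_P`, `g ∈ W_P`, put `E_w := T_x c_g = T_w + ∑ p_(g',g) T_(x g')` (`T_x T_(g') = T_(x g')`, `c_g` supported in `W_P`), `g' ≠ g` with `ℓ(g') < ℓ(g)`, degree `≤ -1`. So the `E_w` form a basis, and its transition matrices to `T` and to `c`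
are unitriangular with off-diagonal entries in `v⁻¹ ℤ[v⁻¹]` (for `E` to `T` and `c` to `T`: given; inverses: induction on the length). So `c_(x g) = ∑ p*_(x',g') T_(x') c_(g')` (finite) with `p*_(x,g) - 1` and all other `p*` of degree `≤ -1`.
`bar (T_x c_g) = bar(T_x) c_g`, `bar T_x = T_x + ∑_(ℓ(y) < ℓ(x)) r_y T_y` (`H_2`), `T_y c_g = T_(x_y) (T_(RK y) c_g)`, `ℓ(x_y) ≤ ℓ(y)`, and `T_(RK y) c_g` is a combination of `c_(g')`, `g' ≤_L g` in `W_P` (write `T_(RK y)` as a combination of `c_u`, `u ∈ W_P`). So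
`bar E_(x g) = E_(x g) + ∑ r E_(x' g')`, `ℓ(x') < ℓ(x)`, `g' ≤_L g`. Call a pair `(x',g') ≠ (x,g)` with `p* ≠ 0` bad if not (`ℓ(x') < ℓ(x)` and `g' ≤_L g`); in particular `(x,g')` with `g' ≠ g` is bad. Suppose there is a bad pair and let `(x',g')` be one with `ℓ(x')` maximal. Compare the
coefficient of `E_(x' g')` in `c_(x g) = bar c_(x g)`: `p*_(x',g') = invert p*_(x',g') + ∑ invert(p*_(x'',g'')) r` over pairs with `ℓ(x') < ℓ(x'')`, `g' ≤_L g''`. Such a pair is not bad by maximality, so it is `(x,g)` or has `ℓ(x'') < ℓ(x)`, `g'' ≤_L g`; in both cases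
`(x',g')` would not be bad. So the sum is empty, `p* = invert p*`, degree `≤ -1`, `p* = 0`, contradiction. The same argument without bad pairs gives `p*_(x,g) = 1` (`p*_(x,g) = invert p*_(x,g)`, `deg (p* - 1) ≤ -1`). This is (ii).
(i) by induction on `ℓ(x)`: `T_x c_g = c_(x g) - ∑ p* T_(x') c_(g')` and the induction hypothesis for the `(x',g')` (`leL` is transitive). -/
def A_K : Prop := ∀ (S W H : Type) [Group W] [Ring H] [Algebra ℤ[T;T⁻¹] H] (X : Base S W H) (P : Set S)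
    (x g : W), XR X.cs P x → g ∈ par X.cs P →
  X.b.repr (X.D.t x * X.D.c g) (x * g) = 1 ∧
  (∀ z, z ≠ x * g → DegLE (-1) (X.b.repr (X.D.t x * X.D.c g) z)) ∧
  (∀ z, z ≠ x * g → X.b.repr (X.D.t x * X.D.c g) z ≠ 0 → ∃ x' g', XR X.cs P x' ∧ g' ∈ par X.cs P ∧ z = x' * g' ∧
    X.cs.length x' < X.cs.length x ∧ X.leL P g' g) ∧
  ∃ p : W × W →₀ ℤ[T;T⁻¹], (∀ r, DegLE (-1) (p r)) ∧
    (∀ r ∈ p.support, XR X.cs P r.1 ∧ r.2 ∈ par X.cs P ∧ X.cs.length r.1 < X.cs.length x ∧ X.leL P r.2 g) ∧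
    X.D.c (x * g) = X.D.t x * X.D.c g + p.sum fun r q => q • (X.D.t r.1 * X.D.c r.2)

/-- PACKET AM-AL (0.7 h). From `A_K`, `A_M`. The mirror image of `A_K`.

PROOF. Apply `A_K` to `y⁻¹`, `g⁻¹` and the anti-automorphism `F` of `A_M`: `F(T_(y⁻¹) c_(g⁻¹)) = c_g T_y`. -/
def A_L : Prop := ∀ (S W H : Type) [Group W] [Ring H] [Algebra ℤ[T;T⁻¹] H] (X : Base S W H) (P : Set S)
    (g y : W), XL X.cs P y → g ∈ par X.cs P →
  X.b.repr (X.D.c g * X.D.t y) (g * y) = 1 ∧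
  (∀ z, z ≠ g * y → DegLE (-1) (X.b.repr (X.D.c g * X.D.t y) z)) ∧
  (∀ z, z ≠ g * y → X.b.repr (X.D.c g * X.D.t y) z ≠ 0 → ∃ g' y', g' ∈ par X.cs P ∧ XL X.cs P y' ∧ z = g' * y' ∧
    X.cs.length y' < X.cs.length y ∧ X.leR P g' g) ∧
  ∃ p : W × W →₀ ℤ[T;T⁻¹], (∀ r, DegLE (-1) (p r)) ∧
    (∀ r ∈ p.support, r.1 ∈ par X.cs P ∧ XL X.cs P r.2 ∧ X.cs.length r.2 < X.cs.length y ∧ X.leR P r.1 g) ∧
    X.D.c (g * y) = X.D.c g * X.D.t y + p.sum fun r q => q • (X.D.c r.1 * X.D.t r.2)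

/-- PACKET AM-AO (2.5 h). From `G_P`, `H_1`, `A_B`, `A_S`, `A_M`, `A_K`. Compatibility of the preorders with `W_P`.

PROOF. (1) (c) Fix `g₀ ∈ W_P` and let `V` be the span of the `c_(x g)`, `x ∈ X_P`, `g ∈ W_P`, `g ≤_L g₀`. By `A_K` `V` is also the span of the `T_x c_g` with the same indices. `V` is a left ideal of `H`: `T_u T_x` is a combination of `T_w = T_(x_w) T_(RK w)`, and `T_(RK w) c_g` is a combination of
`c_(g')`, `g' ≤_L g` (`T_(RK w)` is a combination of `c_u`, `u ∈ W_P`). So a step: if `h u w z ≠ 0` (any `u ∈ W`), `w = x g`, `z = x' g'`, then with `g₀ := g`: `c_w ∈ V`, `c_u c_w ∈ V`, so `g' ≤_L g`. Then induction along `ReflTransGen` (every `w` has a decomposition).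
(2) (d) the coefficient of `c_(a κ₂)` in `c_(a κ₁) c_u`: by `A_K` `c_(a κ₁) = T_a c_(κ₁) + ∑ p T_(a') c_(κ')`, `ℓ(a') < ℓ(a)`, `κ' ∈ W_P`; `c_(κ₁) c_u = ∑ h κ₁ u κ c_κ`, `c_(κ') c_u` is a combination of `c_κ`, `κ ∈ W_P`. `T_(a') c_κ` is a combination of `c_(a'' κ'')` with `ℓ(a'') ≤ ℓ(a') < ℓ(a)`: no
contribution; `T_a c_κ` has the `c_(a κ₂)`-coordinate `δ_(κ,κ₂)`. (3) from (2) by induction along `ReflTransGen` (elements reached from `κ ∈ W_P` are in `W_P` by `A_S`); the steps for `P` are steps for `Q ⊇ P` (`par` is monotone). (4)-(6): mirror images by `A_M`. -/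
def A_O : Prop := ∀ (S W H : Type) [Group W] [Ring H] [Algebra ℤ[T;T⁻¹] H] (X : Base S W H) (P Q : Set S),
  (∀ x g x' g', XR X.cs P x → g ∈ par X.cs P → XR X.cs P x' → g' ∈ par X.cs P → X.leL Q (x' * g') (x * g) →
    X.leL P g' g) ∧
  (∀ a κ₁ u κ₂, XR X.cs P a → κ₁ ∈ par X.cs P → u ∈ par X.cs P → κ₂ ∈ par X.cs P →
    X.h (a * κ₁) u (a * κ₂) = X.h κ₁ u κ₂) ∧
  (P ⊆ Q → ∀ a κ κ', XR X.cs P a → κ ∈ par X.cs P → X.leR P κ' κ → X.leR Q (a * κ') (a * κ)) ∧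
  (∀ g y g' y', g ∈ par X.cs P → XL X.cs P y → g' ∈ par X.cs P → XL X.cs P y' → X.leR Q (g' * y') (g * y) →
    X.leR P g' g) ∧
  (∀ b κ₁ u κ₂, XL X.cs P b → κ₁ ∈ par X.cs P → u ∈ par X.cs P → κ₂ ∈ par X.cs P →
    X.h u (κ₁ * b) (κ₂ * b) = X.h u κ₁ κ₂) ∧
  (P ⊆ Q → ∀ b κ κ', XL X.cs P b → κ ∈ par X.cs P → X.leL P κ' κ → X.leL Q (κ' * b) (κ * b))

/-- PACKET AM-AP (1 h). From `A_B`, `A_S`, `A_M`, `H_2`, `H_3`. First consequences of `PG`: `α` is bounded, monotone for the preorders, invariant under inverses.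

PROOF. Bounded: let `N` be as in `bdd`; for `x, y ∈ W_P` the `T`-coordinates of `c_x c_y` have degree `≤ N` (`c_x`, `c_y` are supported in `W_P` with coordinates of degree `≤ 0`), so (`A_B`) the `h x y z` have degree `≤ N`; `low`: `α z ≤ N`. Monotone: one step `h u a b ≠ 0`, `u, a ∈ W_P`: `b ∈ W_P`
(`A_S`) and `α a ≤ α b` by `p4`; induction. Inverses: `h x y z = h y⁻¹ x⁻¹ z⁻¹` (`A_M`), `low` for `z` gives `(h y⁻¹ x⁻¹ z⁻¹).coeff (α z) ≠ 0`, `deg` for `z⁻¹`: `α z ≤ α z⁻¹`. `α 1 = 0`: `p1`, `c_1 = 1 = T_1`. Reduced products: `h u g (u g) = 1 ≠ 0` (`A_B`) and `p4`. -/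
def A_P : Prop := ∀ (S W H : Type) [Group W] [Ring H] [Algebra ℤ[T;T⁻¹] H] (X : Base S W H) (P : Set S) (α : W → ℕ),
    PG X.D X.h P α →
  (∃ N, ∀ w ∈ par X.cs P, α w ≤ N) ∧
  (∀ z w, w ∈ par X.cs P → X.leL P z w → z ∈ par X.cs P ∧ α w ≤ α z) ∧
  (∀ z w, w ∈ par X.cs P → X.leR P z w → z ∈ par X.cs P ∧ α w ≤ α z) ∧
  (∀ z ∈ par X.cs P, α z⁻¹ = α z) ∧ α 1 = 0 ∧
  (∀ u ∈ par X.cs P, ∀ g ∈ par X.cs P, X.cs.length (u * g) = X.cs.length u + X.cs.length g →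
    α u ≤ α (u * g) ∧ α g ≤ α (u * g))

/-- PACKET AM-AJ (3 h). From `A_B`, `A_S`, `A_M`, `A_P`, `H_1`, `H_2`, `H_3`. The ring `J_P`: trace form, cyclicity (P7), strong P8, the refined form of (U).

PROOF. Write `c(x,y;z) := (h x y z).coeff (α z)`, `n_z := (X.D.t.repr (c_z) 1).coeff (-α z)` (everything in `W_P`).
(0) Associativity: `∑_z c(x,y;z) c(z,w;u) = ∑_z c(y,w;z) c(x,z;u)` for `x,y,w,u ∈ W_P`: as in `H_J`: `(c_x c_y) c_w = c_x (c_y c_w)`, take the coefficient of `v^(2 α u)` of the `c_u`-coordinate. Left: `h z w u ≠ 0` implies `z ∈ W_P`, `α z ≤ α u` (`p4`), both factors have degree `≤ α u` (`deg`), `coeff_mul_top`; if the coefficient of `v^(α u)` in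
`h z w u` is not `0` then `α z = α u` (`p8`). Same on the right.
(1) Trace: the `T_1`-coefficient of `c_x c_y` is `∑_z h x y z * p_(1,z)`, degrees `≤ α z` and `≤ -α z` (`p1`), so the coefficient of `v^0` is `∑_z c(x,y;z) n_z` (`coeff_mul_top`). On the other hand it is `∑_u p_(u,x) p_(u⁻¹,y)` (`H_1`: `T_u T_(u')` has the `T_1`-coefficient `1` if `u u' = 1`, else `0`), and
`p_(u,x)` has degree `≤ -1` unless `u = x`: the coefficient of `v^0` is `1` if `x y = 1`, else `0`.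
(2) Cyclicity: sum (0), with `w := u'` and weighted by `n_u` over `u`, i.e. apply `τ_J(t_z) := n_z` to `(t_x t_y) t_(u') = t_x (t_y t_(u'))`: by (1) the left side is `∑_z c(x,y;z) δ_(z u',1) = c(x,y;u'⁻¹)` and the right side `c(y,u';x⁻¹)`.
(3) Strong P8: let `c(x,y;z) ≠ 0`. `h x y z ≠ 0`: `z ≤_R x`, `z ≤_L y`. By (2) with `u' = z⁻¹`: `c(y,z⁻¹;x⁻¹) ≠ 0`: `x⁻¹ ≤_R y` and `x⁻¹ ≤_L z⁻¹`, i.e. `x ≤_R z` (`A_M`). Again (2): `c(z⁻¹,x;y⁻¹) ≠ 0`: `y⁻¹ ≤_R z⁻¹`, i.e. `y ≤_L z`, and `y⁻¹ ≤_L x`, i.e. `y ≤_R x⁻¹`.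
(4) (U) refined: let `lam` be as in `u` for `g`, and restrict it to the pairs `p` with `p.1 ~_R g`, `p.2 ~_L g` (`Finsupp.filter`). Let `z ∈ W_P`. If `z ~_R g` and `z ~_L g`: a pair with `c(p.1,p.2;z) ≠ 0` has `p.1 ~_R z ~_R g`, `p.2 ~_L z ~_L g` by (3), so the sum does not change. If not: `z ≠ g`, and no pair of the
restriction has `c(p.1,p.2;z) ≠ 0` (else `z ~_R p.1 ~_R g` and `z ~_L p.2 ~_L g`): the sum is `0`. -/
def A_J : Prop := ∀ (S W H : Type) [Group W] [Ring H] [Algebra ℤ[T;T⁻¹] H] (X : Base S W H) (P : Set S) (α : W → ℕ),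
    PG X.D X.h P α →
  (∀ x ∈ par X.cs P, ∀ y ∈ par X.cs P, x * y = 1 →
    ((X.h x y).sum fun z p => p.coeff (α z) * (X.D.t.repr (X.D.c z) 1).coeff (-(α z : ℤ))) = 1) ∧
  (∀ x ∈ par X.cs P, ∀ y ∈ par X.cs P, x * y ≠ 1 →
    ((X.h x y).sum fun z p => p.coeff (α z) * (X.D.t.repr (X.D.c z) 1).coeff (-(α z : ℤ))) = 0) ∧
  (∀ x ∈ par X.cs P, ∀ y ∈ par X.cs P, ∀ u ∈ par X.cs P,
    (X.h x y u⁻¹).coeff (α u⁻¹) = (X.h y u x⁻¹).coeff (α x⁻¹)) ∧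
  (∀ x ∈ par X.cs P, ∀ y ∈ par X.cs P, ∀ z ∈ par X.cs P, (X.h x y z).coeff (α z) ≠ 0 →
    X.eqR P z x ∧ X.eqL P z y ∧ X.eqR P x⁻¹ y ∧ X.eqL P x y⁻¹) ∧
  (∀ g ∈ par X.cs P, ∃ lam : W × W →₀ ℤ,
    (∀ p ∈ lam.support, p.1 ∈ par X.cs P ∧ p.2 ∈ par X.cs P ∧ X.eqR P p.1 g ∧ X.eqL P p.2 g) ∧
    (lam.sum fun p m => m * (X.h p.1 p.2 g).coeff (α g)) = 1 ∧
    ∀ z ∈ par X.cs P, z ≠ g → (lam.sum fun p m => m * (X.h p.1 p.2 z).coeff (α z)) = 0)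

/-- PACKET AM-AQ (1 h). From `A_S`, `A_P`, `A_J`. P12: the function `a` of `W_P` is the restriction of the one of `W_Q`, `P ⊆ Q`.

PROOF. `g ∈ W_P ⊆ W_Q`. `α g ≤ β g`: `low` for `(P, α)` gives `x, y ∈ W_P` with `(h x y g).coeff (α g) ≠ 0`, and `deg h x y g ≤ β g`. `β g ≤ α g`: by `A_J` (1) for `(P, α)`, `x = g`, `y = g⁻¹`, some `d ∈ W_P` (in the support of `h g g⁻¹`, so in `W_P`) has `(h g g⁻¹ d).coeff (α d) ≠ 0` and
`(X.D.t.repr (c_d) 1).coeff (-α d) ≠ 0`. `p1` for `(Q, β)`: `-α d ≤ -β d`. `p8` for `(P, α)`: `α g = α d`. `p4` for `(Q, β)`: `β g ≤ β d ≤ α d = α g`. -/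
def A_Q : Prop := ∀ (S W H : Type) [Group W] [Ring H] [Algebra ℤ[T;T⁻¹] H] (X : Base S W H) (P Q : Set S)
    (α β : W → ℕ), P ⊆ Q → PG X.D X.h P α → PG X.D X.h Q β → ∀ w ∈ par X.cs P, α w = β w

/-- PACKET AM-AC (2.5 h). From `G_P`, `A_B`, `A_S`, `A_M`, `A_K`, `A_P`. The coefficients `h w k z` for `k ∈ W_P`.

PROOF. Let `w = x g`, `z = x' g'`, `k ∈ W_P`. By `A_K` `c_w = ∑_((x₁,g₁)) p T_(x₁) c_(g₁)` with `p = 1` for `(x,g)` and `deg p ≤ -1`, `ℓ(x₁) < ℓ(x)` otherwise. `c_(g₁) c_k = ∑_(g₂ ∈ W_P) h g₁ k g₂ c_(g₂)`, degree `≤ α g₂` (`deg`). `T_(x₁) c_(g₂) = c_(x₁ g₂) + ∑ q c_(x₂ g₃)`, `deg q ≤ -1`, `g₃ ≤_L g₂`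
so `α g₂ ≤ α g₃` (`A_P`), `ℓ(x₂) < ℓ(x₁)`. So `h w k z = ∑ p (h g₁ k g₂) q`, where `q` is the `c_z`-coordinate of `T_(x₁) c_(g₂)`: every term has degree `≤ α g₂ ≤ α g'`, and degree `≤ α g' - 1` unless `(x₁,g₁) = (x,g)` and `z = x₁ g₂`, i.e. `x' = x`, `g₂ = g'` (uniqueness of decompositions). The remaining term is `h g k g'`.
The last two clauses: mirror images (`A_M`, `α` is invariant under inverses by `A_P`). -/
def A_C : Prop := ∀ (S W H : Type) [Group W] [Ring H] [Algebra ℤ[T;T⁻¹] H] (X : Base S W H) (P : Set S) (α : W → ℕ),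
    PG X.D X.h P α →
  (∀ x g k x' g', XR X.cs P x → g ∈ par X.cs P → k ∈ par X.cs P → XR X.cs P x' → g' ∈ par X.cs P →
    DegLE (α g') (X.h (x * g) k (x' * g')) ∧
    (x' = x → (X.h (x * g) k (x' * g')).coeff (α g') = (X.h g k g').coeff (α g')) ∧
    (x' ≠ x → (X.h (x * g) k (x' * g')).coeff (α g') = 0)) ∧
  (∀ g y k g' y', XL X.cs P y → g ∈ par X.cs P → k ∈ par X.cs P → XL X.cs P y' → g' ∈ par X.cs P →
    DegLE (α g') (X.h k (g * y) (g' * y')) ∧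
    (y' = y → (X.h k (g * y) (g' * y')).coeff (α g') = (X.h k g g').coeff (α g')) ∧
    (y' ≠ y → (X.h k (g * y) (g' * y')).coeff (α g') = 0))

/-- PACKET AM-A1 (3.5 h). From `G_P`, `H_1`, `A_B`, `A_S`, `A_M`, `A_K`, `A_O`, `A_P`, `A_J`, `A_C`. Relative P1.

PROOF. `P ⊆ Q`, `w ∈ W_Q`, `π_(k,w) := X.b.repr (X.pr P (c_w)) k`. (0) `pr P` of `T_(x') c_(g')` (`x' ∈ X_P`, `g' ∈ W_P`) is `0` if `x' ≠ 1` (`x' W_P` does not meet `W_P`) and `c_(g')` if `x' = 1`. So by `A_K` for `w = x g`: `π_(k,w)` is the coefficient `p` of `T_1 c_k`: `π_(k,w) ≠ 0` implies `k ∈ W_P`, `k ≤_L g = RK(w)`; `deg π ≤ 0`.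
(1) Let `E ≥ 0` be an integer such that `deg π_(k,w) ≤ α k - α w + E` for all `w ∈ W_Q`, `k` (e.g. a bound of `α` on `W_Q`, `A_P`). Claim: if `E > 0` the same holds with `E - 1`. Suppose not, let `A` be the set of the values `α k` for the pairs `(k,w)`, `w ∈ W_Q`, whose `π_(k,w)` has a nonzero coefficient at `v^(α k - α w + E)`, `m := max A` (bounded), `(k,w)` with
`α k = m`, `g₂ := k⁻¹`. `Θ(Z) := ∑_(k'' ∈ W_P, α k'' = m) n_(k'') · (coefficient of v^(2m - α w + E) of the c_(k'')-coordinate of Z)`, `n_z = (X.D.t.repr (c_z) 1).coeff (-α z)`. Compute `Θ(pr(c_w c_(g₂)))` in two ways.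
(a) `pr(c_w c_(g₂)) = pr(c_w) c_(g₂) = ∑_(k') π_(k',w) ∑_(k'') h k' g₂ k'' c_(k'')` (`A_S`). For `α k'' = m`: `h k' g₂ k'' ≠ 0` implies `α k' ≤ m`, `deg h ≤ m`, `deg π ≤ α k' - α w + E`, so only `α k' = m` contributes and `Θ = ∑_(k') (coeff of v^(m - α w + E) of π_(k',w)) ∑_(k'') c(k',g₂;k'') n_(k'')` (`p8`: `c(k',g₂;k'') ≠ 0`, `α g₂ = m` imply `α k'' = m = α k'`)
`= ∑_(k') (..) δ_(k' g₂,1)` (`A_J`) `= ` the coefficient of `π_(k,w)`, not `0`.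
(b) `c_w c_(g₂) = ∑_z h w g₂ z c_z`, `z ∈ W_Q`, `pr(c_z) = ∑ π_(k'',z) c_(k'')`. Let `h w g₂ z ≠ 0`, `π_(k'',z) ≠ 0`, `α k'' = m`. `z ≤_L g₂`, so `RK(z) ≤_L g₂` (`A_O` (c)) and `α(RK z) ≥ α g₂ = m`; `k'' ≤_L RK(z)` so `α(RK z) ≤ m`. So `α(RK z) = m` and `deg h w g₂ z ≤ m` by `A_C`; `α z ≥ α w` (`p4` in `W_Q`), `deg π_(k'',z) ≤ m - α z + E`. So the term
contributes to the coefficient of `v^(2m - α w + E)` only if `α z = α w`, and `Θ = ∑_z (coeff of v^m of h w g₂ z) ∑_(α k'' = m) n_(k'') (coeff of v^(m - α z + E) of π_(k'',z))` over the `z` with `α z = α w`, `RK(z) ≤_L g₂`, `α(RK z) = m`. For such `z` compare with the `T_1`-coefficient of `c_z`, which is `∑_(k'') π_(k'',z) p_(1,k'')`: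
the coefficient of `v^(E - α z)` is `∑_(k'') (coeff of v^(α k'' - α z + E) of π_(k'',z)) n_(k'')` over all `k''`; those with `α k'' > m` vanish by the choice of `m`, those with `α k'' < m` because `π_(k'',z) ≠ 0` implies `α k'' ≥ α(RK z) = m`. So the inner sum is the coefficient of `v^(E - α z)` of the `T_1`-coefficient of `c_z`, which is `0` by P1 in `W_Q`, as `E > 0`.
Contradiction. So `deg π_(k,w) ≤ α k - α w`.
(2) Equality: let the coefficient of `v^(α k - α w)` in `π_(k,w)` be nonzero, `m := α k`, `g₂ := k⁻¹`, `E := 0`. (a) is still valid: `Θ ≠ 0`. In (b) (up to the comparison with P1) there must be a `z` with `RK(z) ≤_L g₂`, `α(RK z) = m` and a nonzero coefficient of `v^m` in `h w g₂ z`. By `A_C` this coefficient is `0` or `c(RK w, g₂; RK z)`. So `c(RK w, k⁻¹; RK z) ≠ 0`, and `A_J`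
gives `RK w ~_L (k⁻¹)⁻¹ = k`. The statement for `LK(w)`: mirror image (`π_(k⁻¹,w⁻¹) = π_(k,w)` by the anti-automorphism `F`, which commutes with `pr P`). -/
def A_1 : Prop := ∀ (S W H : Type) [Group W] [Ring H] [Algebra ℤ[T;T⁻¹] H] (X : Base S W H) (P Q : Set S) (α : W → ℕ),
    P ⊆ Q → PG X.D X.h P α → PG X.D X.h Q α → ∀ w ∈ par X.cs Q, ∀ k,
  (X.b.repr (X.pr P (X.D.c w)) k ≠ 0 → k ∈ par X.cs P) ∧
  DegLE ((α k : ℤ) - α w) (X.b.repr (X.pr P (X.D.c w)) k) ∧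
  ((X.b.repr (X.pr P (X.D.c w)) k).coeff ((α k : ℤ) - α w) ≠ 0 →
    (∀ x g, XR X.cs P x → g ∈ par X.cs P → w = x * g → X.eqL P k g) ∧
    (∀ g y, XL X.cs P y → g ∈ par X.cs P → w = g * y → X.eqR P k g))

/-- PACKET AM-AR (3 h). From `G_P`, `A_B`, `A_S`, `A_K`, `A_L`, `A_O`, `A_P`, `A_J`, `H_1`. The elements `T_x c_g T_y`.

PROOF. `P ⊆ Q`, `x ∈ X_P ∩ W_Q`, `g ∈ W_P`, `y ∈ Y_P ∩ W_Q`; `η_z := X.b.repr (T_x c_g T_y) z`; `η_z ≠ 0` implies `z ∈ W_Q` (`A_S`). (0) There is `D₀ ≥ 0` with `deg η_z ≤ α z - α g + D₀` for all such `x,g,y,z`: `T_x T_(g') T_y` has `T`-coordinates of degree `≤ 2N` (`bdd` for `Q`, twice), the coordinates of `c_g` have degree `≤ 0`, so `deg η_z ≤ 2N` (`A_B`); `α g` is bounded (`A_P`).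
(1) Let `lam` be as in the last clause of `A_J` for `(P, α)` and `g`. Put `e := T(-α g) • (∑ lam(p) h p.1 p.2) - single g 1`. Then `c_g = v^(-α g) ∑ lam(p) c_(p.1) c_(p.2) - ∑_(g') e_(g') c_(g')`, `g' ∈ W_P`. `deg e_(g') ≤ α g' - α g - 1` for all `g'`: `deg h ≤ α g'`, and the coefficient of `v^(α g' - α g)` in `v^(-α g) ∑ lam h` is
`∑ lam(p) c(p.1,p.2;g') = δ_(g,g')`. (2) Claim: if `deg η_z ≤ α z - α g + D` for all `x,g,y,z` and `D ≥ 0`, then: `deg η_z ≤ α z - α g + max(0, D - 1)`, and if `D = 0` and the coefficient of `v^(α z - α g)` in `η_z` is nonzero then `z ~_R x g` and `z ~_L g y`. Indeed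
`T_x c_g T_y = v^(-α g) ∑ lam(p) (T_x c_(p.1)) (c_(p.2) T_y) - ∑ e_(g') T_x c_(g') T_y`; the second sum has `c_z`-coordinate of degree `≤ α g' - α g - 1 + α z - α g' + D = α z - α g + D - 1`. First sum: `T_x c_(p.1) = c_(x p.1) + ∑ q c_u`, `c_(p.2) T_y = c_(p.2 y) + ∑ q' c_(u')` (`A_K`, `A_L`; `u, u' ∈ W_Q`), `deg q, q' ≤ -1`; `deg h u u' z ≤ α z`: degree
`≤ α z - α g`, and the coefficient of `v^(α z - α g)` is `∑ lam(p) c(x p.1, p.2 y; z)`, taken in `W_Q`. If it is nonzero, some `p` has `c(x p.1, p.2 y; z) ≠ 0`, so by `A_J` for `(Q, α)` `z ~_R x p.1` and `z ~_L p.2 y`, and `x p.1 ~_R x g`, `p.2 y ~_L g y` in `W_Q` by `A_O` (3), (6) (`p.1 ~_R g`, `p.2 ~_L g` in `W_P`). Descending induction from `D₀` to `0`. -/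
def A_R : Prop := ∀ (S W H : Type) [Group W] [Ring H] [Algebra ℤ[T;T⁻¹] H] (X : Base S W H) (P Q : Set S) (α : W → ℕ),
    P ⊆ Q → PG X.D X.h P α → PG X.D X.h Q α → ∀ x g y z, XR X.cs P x → x ∈ par X.cs Q → g ∈ par X.cs P →
    XL X.cs P y → y ∈ par X.cs Q →
  (X.b.repr (X.D.t x * X.D.c g * X.D.t y) z ≠ 0 → z ∈ par X.cs Q) ∧
  DegLE ((α z : ℤ) - α g) (X.b.repr (X.D.t x * X.D.c g * X.D.t y) z) ∧
  ((X.b.repr (X.D.t x * X.D.c g * X.D.t y) z).coeff ((α z : ℤ) - α g) ≠ 0 →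
    X.eqR Q z (x * g) ∧ X.eqL Q z (g * y))

/-- PACKET AM-AU (1.5 h). From `G_P`, `A_B`, `A_S`, `A_O`, `A_P`, `A_J`, `A_C`. Approximate factorization of `c_(κ b)`.

PROOF. `P ⊆ Q`, `κ ∈ W_P`, `b ∈ Y_P ∩ W_Q`. Let `lam` be as in the last clause of `A_J` for `(P, α)` and `κ`, `e := T(-α κ) • (∑ lam(p) • h p.1 (p.2 b)) - single (κ b) 1 : W →₀ ℤ[T;T⁻¹]`. The identity is clear from `c_(p.1) c_(p.2 b) = ∑ h p.1 (p.2 b) z c_z`. Let `z = κ' b'` (`κ' ∈ W_P`, `b' ∈ Y_P`). By `A_C` (mirror part) `deg h p.1 (p.2 b) z ≤ α κ'` with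
coefficient of `v^(α κ')` equal to `c(p.1,p.2;κ')` if `b' = b` and `0` otherwise; so the coefficient of `v^(α κ' - α κ)` in `T(-α κ) ∑ lam h` is `δ_(κ,κ')` if `b' = b`, else `0`; this is the coefficient of `single (κ b) 1` (for `z = κ b` the exponent is `0`; for `z ≠ κ b` both are `0`; if `z = κ b` then `deg 1 = 0 ≤ α κ' - α κ = 0`). So `deg e_z ≤ α κ' - α κ - 1`.
`e_z ≠ 0`, `z ≠ κ b`: some `h p.1 (p.2 b) z ≠ 0`, `p.1 ∈ W_P ⊆ W_Q`, so `z ∈ W_Q` and `α (p.2 b) ≤ α z` (`p4`), `α (p.2 b) = α (κ b)` as `p.2 b ~_L κ b` in `W_Q` (`A_O` (6), `A_P`). -/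
def A_U : Prop := ∀ (S W H : Type) [Group W] [Ring H] [Algebra ℤ[T;T⁻¹] H] (X : Base S W H) (P Q : Set S) (α : W → ℕ),
    P ⊆ Q → PG X.D X.h P α → PG X.D X.h Q α → ∀ κ b, κ ∈ par X.cs P → XL X.cs P b → b ∈ par X.cs Q →
  ∃ (lam : W × W →₀ ℤ) (e : W →₀ ℤ[T;T⁻¹]),
    (∀ p ∈ lam.support, p.1 ∈ par X.cs P ∧ p.2 ∈ par X.cs P ∧ X.eqR P p.1 κ ∧ X.eqL P p.2 κ) ∧
    (∀ z ∈ e.support, z ∈ par X.cs Q ∧ α (κ * b) ≤ α z ∧ ∀ κ' b', κ' ∈ par X.cs P → XL X.cs P b' → z = κ' * b' →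
      DegLE ((α κ' : ℤ) - α κ - 1) (e z)) ∧
    X.D.c (κ * b) = (T (-(α κ : ℤ)) : ℤ[T;T⁻¹]) • (lam.sum fun p m => m • (X.D.c p.1 * X.D.c (p.2 * b))) -
      e.sum fun z q => q • X.D.c z

end Pool.Agent.Helper45.AM
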