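import Pool.Agent.Helper45.AM.GoalsA

/-!
# Project AM (MP_cc6379_al): goals, part P. Direct products.

`X : Base S W H`, `P, Q ⊆ S` with `M i j = 2` for all `i ∈ P`, `j ∈ Q` (so `P`, `Q` are disjoint, as `M i i = 1`).
`G_P` stands for `G_PA`, `G_PB`, `G_PC` of `Pool.Agent.Helper15.AM.GoalsG`.
-/

set_option autoImplicit false

open LaurentPolynomial Pool.Agent.Helper15.RA

noncomputable section

namespace Pool.Agent.Helper45.AM

/-- PACKET AM-P1 (2 h). From `G_P`, `H_1`, `H_2`, `A_B`, `A_S`. The Hecke algebra of a direct product.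

PROOF. `s_i s_j = s_j s_i` for `i ∈ P`, `j ∈ Q` (`(s_i s_j)^2 = 1`), so elements of `W_P` and `W_Q` commute (closure induction twice). Let `g ∈ W_P`, `g' ∈ W_Q`. `XR Q g`: a right descent `j ∈ Q` of `g ∈ W_P` would be in `P` (`G_PB`); so `ℓ(g g') = ℓ(g) + ℓ(g')` (`G_PA`), `g g' = k k'` implies `g = k`, `g' = k'` (`G_PC`). Every element of `W_(P ∪ Q)` is some `g g'`:
closure induction (the set of the `g g'` is closed under multiplication and inverses by commutation). `T_g T_(g') = T_(g g') = T_(g' g) = T_(g') T_g`, so elements supported in `W_P` and in `W_Q` commute. (4) `Z := c_g c_(g')`: `bar Z = Z`; `c_g`, `c_(g')` are supported in `W_P`, `W_Q` (`A_S`), so the `T_(u u')`-coordinate of `Z` is `p_u p'_(u')`: `1` for `u u' = g g'` and of degree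
`≤ -1` otherwise (`H_2`); by uniqueness (`H_2`) `Z = c_(g g')`. In particular the `T_1`-coordinate is `p_1 p'_1`. (5) `c_(g g') c_(k k') = c_g c_k c_(g') c_(k') = ∑ h_(g,k,l) h_(g',k',l') c_l c_(l')`, `l ∈ W_P`, `l' ∈ W_Q` (`A_S`), `c_l c_(l') = c_(l l')`: compare coordinates. (6) `T_(g g') T_(k k') = (T_g T_k) (T_(g') T_(k'))`, `T_u T_(u') = T_(u u')`. -/
def P_1 : Prop := ∀ (S W H : Type) [Group W] [Ring H] [Algebra ℤ[T;T⁻¹] H] (X : Base S W H) (P Q : Set S),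
  (∀ i ∈ P, ∀ j ∈ Q, X.M i j = 2) →
  (∀ g ∈ par X.cs P, ∀ g' ∈ par X.cs Q, g * g' = g' * g ∧
    X.cs.length (g * g') = X.cs.length g + X.cs.length g') ∧
  (∀ g ∈ par X.cs P, ∀ g' ∈ par X.cs Q, ∀ k ∈ par X.cs P, ∀ k' ∈ par X.cs Q, g * g' = k * k' → g = k ∧ g' = k') ∧
  (∀ w, w ∈ par X.cs (P ∪ Q) ↔ ∃ g ∈ par X.cs P, ∃ g' ∈ par X.cs Q, w = g * g') ∧
  (∀ g ∈ par X.cs P, ∀ g' ∈ par X.cs Q, X.D.c (g * g') = X.D.c g * X.D.c g' ∧
    X.D.t.repr (X.D.c (g * g')) 1 = X.D.t.repr (X.D.c g) 1 * X.D.t.repr (X.D.c g') 1) ∧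
  (∀ g ∈ par X.cs P, ∀ g' ∈ par X.cs Q, ∀ k ∈ par X.cs P, ∀ k' ∈ par X.cs Q, ∀ l ∈ par X.cs P, ∀ l' ∈ par X.cs Q,
    X.h (g * g') (k * k') (l * l') = X.h g k l * X.h g' k' l' ∧
    X.D.t.repr (X.D.t (g * g') * X.D.t (k * k')) (l * l') =
      X.D.t.repr (X.D.t g * X.D.t k) l * X.D.t.repr (X.D.t g' * X.D.t k') l')

/-- PACKET AM-P2 (2 h). From `P_1`, `A_S`. `PG` for direct products.

PROOF. `γ(g g') := α g + β g'` for `g ∈ W_P`, `g' ∈ W_Q` (well defined by `P_1`; `0` elsewhere). All elements of `W_(P ∪ Q)` are of this form, with unique factors. `bdd`: the coordinates of `T_(g g') T_(k k')` are supported in `W_(P ∪ Q)` (`A_S`) and are products: degree `≤ N + N'`. `deg`: product. `low`: `(h g k l).coeff (α l) ≠ 0`, `(h g' k' l').coeff (β l') ≠ 0`: the coefficient of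
`v^(α l + β l')` of the product is the product (`coeff_mul_top`). `p1`: product. `p4`: both factors are nonzero. `p8`: the coefficient of `v^(α l + β l')` is the product of the coefficients, so both are nonzero. `u`: if `lam`, `lam'` are as in `u` for `g`, `g'`: take `∑ lam(p) lam'(p') single (p.1 p'.1, p.2 p'.2)`: its sum against `(h .. (z z')).coeff` is the product of the two sums,
`δ_(z,g) δ_(z',g')`. -/
def P_2 : Prop := ∀ (S W H : Type) [Group W] [Ring H] [Algebra ℤ[T;T⁻¹] H] (X : Base S W H) (P Q : Set S)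
  (α β : W → ℕ), (∀ i ∈ P, ∀ j ∈ Q, X.M i j = 2) → PG X.D X.h P α → PG X.D X.h Q β →
  ∃ γ : W → ℕ, PG X.D X.h (P ∪ Q) γ ∧ ∀ g ∈ par X.cs P, ∀ g' ∈ par X.cs Q, γ (g * g') = α g + β g'

end Pool.Agent.Helper45.AM
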