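import Pool.Agent.Helper45.AM.Stmt
import Pool.Agent.Helper15.RA.Basic

/-!
# Project AM (MP_cc6379_al): definitions used in the proof.
-/

set_option autoImplicit false

open LaurentPolynomial Pool.Agent.Helper15.RA

noncomputable section

namespace Pool.Agent.Helper45.AM

/-! ## Coxeter groups -/

section cox

variable {S W : Type} [Group W] {M : CoxeterMatrix S} (cs : CoxeterSystem M W)

/-- The parabolic subgroup `W_P`. -/
def par (P : Set S) : Subgroup W := Subgroup.closure (cs.simple '' P)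

/-- `x` is the shortest element of `x W_P` (`x ∈ X_P`). -/
def XR (P : Set S) (x : W) : Prop := ∀ i ∈ P, cs.length (x * cs.simple i) = cs.length x + 1

/-- `y` is the shortest element of `W_P y` (`y ∈ Y_P`). -/
def XL (P : Set S) (y : W) : Prop := ∀ i ∈ P, cs.length (cs.simple i * y) = cs.length y + 1

end cox

section pg

variable {S W H : Type} [Group W] [Ring H] [Algebra ℤ[T;T⁻¹] H] {M : CoxeterMatrix S} {cs : CoxeterSystem M W}
  {L : W → ℕ}

open Classical in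
/-- (B), P1, P4, P8 and (U) for the parabolic subgroup `W_P`, inside the Hecke algebra of `W`; `α` (on `W_P`) is the
function `a` of `W_P`. -/
structure PG (D : Hecke cs L H) (h : W → W → W →₀ ℤ[T;T⁻¹]) (P : Set S) (α : W → ℕ) : Prop where
  bdd : ∃ N : ℕ, ∀ x ∈ par cs P, ∀ y ∈ par cs P, ∀ z, DegLE N (D.t.repr (D.t x * D.t y) z)
  deg : ∀ x ∈ par cs P, ∀ y ∈ par cs P, ∀ z ∈ par cs P, DegLE (α z) (h x y z)
  low : ∀ z ∈ par cs P, ∃ x ∈ par cs P, ∃ y ∈ par cs P, (h x y z).coeff (α z) ≠ 0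
  p1 : ∀ z ∈ par cs P, DegLE (-(α z : ℤ)) (D.t.repr (D.c z) 1)
  p4 : ∀ x ∈ par cs P, ∀ y ∈ par cs P, ∀ z ∈ par cs P, h x y z ≠ 0 → α x ≤ α z ∧ α y ≤ α z
  p8 : ∀ x ∈ par cs P, ∀ y ∈ par cs P, ∀ z ∈ par cs P, (h x y z).coeff (α z) ≠ 0 → α x = α z ∧ α y = α z
  u : ∀ g ∈ par cs P, ∃ lam : W × W →₀ ℤ, (∀ p ∈ lam.support, p.1 ∈ par cs P ∧ p.2 ∈ par cs P) ∧
    ∀ z ∈ par cs P, (lam.sum fun p m => m * (h p.1 p.2 z).coeff (α z)) = if z = g then 1 else 0

end pg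

/-! ## The Hecke algebra of `W` with all its data -/

/-- A Coxeter group with a weight function, its Hecke algebra, the `h_(x,y,z)` and the basis `c`. -/
structure Base (S W H : Type) [Group W] [Ring H] [Algebra ℤ[T;T⁻¹] H] where
  M : CoxeterMatrix S
  cs : CoxeterSystem M W
  L : W → ℕ
  wt : IsWeight cs L
  D : Hecke cs L H
  h : W → W → W →₀ ℤ[T;T⁻¹]
  isH : D.IsH h
  b : Module.Basis W ℤ[T;T⁻¹] H
  hb : ∀ w, b w = D.c w

namespace Base

variable {S W H : Type} [Group W] [Ring H] [Algebra ℤ[T;T⁻¹] H] (X : Base S W H)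

/-- `T_w` -/
def t (w : W) : H := X.D.t w

/-- `c_w` -/
def c (w : W) : H := X.D.c w

/-- The coefficient of `T_w` in `Z`. -/
def tc (Z : H) (w : W) : ℤ[T;T⁻¹] := X.D.t.repr Z w

/-- The coefficient of `c_w` in `Z`. -/
def cc (Z : H) (w : W) : ℤ[T;T⁻¹] := X.b.repr Z w

/-- The length function. -/
def ln (w : W) : ℕ := X.cs.length w

/-- `W_P` -/
def G (P : Set S) : Subgroup W := par X.cs P

/-- `z ≤_L w` in `W_P`: `z` is obtained from `w` by steps from `a` to `b` where `c_b` occurs in `c_u c_a`, `u ∈ W_P`. -/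
def leL (P : Set S) (z w : W) : Prop := Relation.ReflTransGen (fun a b => ∃ u ∈ par X.cs P, X.h u a b ≠ 0) w z

/-- `z ≤_R w` in `W_P`: `z` is obtained from `w` by steps from `a` to `b` where `c_b` occurs in `c_a c_u`, `u ∈ W_P`. -/
def leR (P : Set S) (z w : W) : Prop := Relation.ReflTransGen (fun a b => ∃ u ∈ par X.cs P, X.h a u b ≠ 0) w z

/-- `z ~_L w` in `W_P` -/
def eqL (P : Set S) (z w : W) : Prop := X.leL P z w ∧ X.leL P w z

/-- `z ~_R w` in `W_P` -/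
def eqR (P : Set S) (z w : W) : Prop := X.leR P z w ∧ X.leR P w z

/-- The part of `Z` supported in `W_P`. -/
def pr (P : Set S) (Z : H) : H :=
  haveI := Classical.decPred (· ∈ par X.cs P)
  (X.D.t.repr.symm ((X.D.t.repr Z).filter (· ∈ par X.cs P)))

end Base

/-! ## Amalgams -/

/-- The data of an amalgam `S = F true ∪ F false`. -/
structure AC (S W H : Type) [Group W] [Ring H] [Algebra ℤ[T;T⁻¹] H] extends Base S W H where
  F : Bool → Set S
  cover : ∀ i, ∃ b, i ∈ F b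
  inf : ∀ b, ∀ i ∈ F b, i ∉ F (!b) → ∀ j ∈ F (!b), j ∉ F b → M i j = 0
  α : W → ℕ
  pg : ∀ b, PG D h (F b) α
  pgK : PG D h (F true ∩ F false) α

namespace AC

variable {S W H : Type} [Group W] [Ring H] [Algebra ℤ[T;T⁻¹] H] (X : AC S W H)

/-- `K = F true ∩ F false` -/
def K : Set S := X.F true ∩ X.F false

/-- The admissible triples. -/
def Adm (x g y : W) : Prop :=
  (∃ b, XR X.cs (X.F b) x ∧ g ∈ par X.cs (X.F b) ∧ XL X.cs (X.F b) y) ∨
    (XR X.cs X.K x ∧ g ∈ par X.cs X.K ∧ XL X.cs X.K y)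

/-- The syllable length: the least `n` such that `w ∈ V^n W_K`, where `V` is the union of the `W_(F b)`. -/
def sl (w : W) : ℕ :=
  sInf {n | ∃ l : List W, l.length = n ∧ (∀ g ∈ l, ∃ b, g ∈ par X.cs (X.F b)) ∧ ∃ k ∈ par X.cs X.K, w = l.prod * k}

open Classical in
/-- The number of syllables of the triple `(x, g, y)`. -/
def nn (x g y : W) : ℕ := X.sl x + (if g ∈ par X.cs X.K then 0 else 1) + X.sl y

/-- `a'(w) ≥ m`: there is a reduced product `w = u g u'` with `g ∈ W_(F b)`, `a(g) ≥ m`. -/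
def Ge (m : ℕ) (w : W) : Prop :=
  ∃ (u g u' : W) (b : Bool), g ∈ par X.cs (X.F b) ∧ w = u * g * u' ∧
    X.cs.length w = X.cs.length u + X.cs.length g + X.cs.length u' ∧ m ≤ X.α g

/-- `T_x c_g T_y` -/
def B (x g y : W) : H := X.D.t x * X.D.c g * X.D.t y

/-- The module `I_M^(≤ n)`. -/
def Idl (M n : ℕ) : Submodule ℤ[T;T⁻¹] H :=
  Submodule.span ℤ[T;T⁻¹] {Z | ∃ x g y, X.Adm x g y ∧ M < X.α g ∧ X.nn x g y ≤ n ∧ Z = X.B x g y}

/-- The `T`-coordinates of `Z` have degree at most `k`, and those outside `{w | a'(w) ≤ M, sl w ≤ n}` vanish. -/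
def Low (M n : ℕ) (k : ℤ) (Z : H) : Prop :=
  ∀ w, DegLE k (X.D.t.repr Z w) ∧ (X.D.t.repr Z w ≠ 0 → ¬ X.Ge (M + 1) w ∧ X.sl w ≤ n)

/-- `Lam M n k` -/
def Lam (M n : ℕ) (k : ℤ) (Z : H) : Prop := ∃ l, X.Low M n k l ∧ Z - l ∈ X.Idl M n

/-- `LamT M n k` -/
def LamT (M n : ℕ) (k : ℤ) (Z : H) : Prop :=
  ∃ l, X.Low M n k l ∧ Z - l ∈ X.Idl M n ∧ DegLE (k - M) (X.D.t.repr (Z - l) 1)

open Classical in
/-- `ε_M(x,g,y)` -/
def eps (M : ℕ) (x g y : W) : ℤ := if ¬ X.Ge M (x * g) ∨ ¬ X.Ge M (g * y) then 1 else 0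

/-- (a) for all `w` with fewer than `n` syllables -/
def SA (n : ℕ) : Prop :=
  ∀ (M : ℕ) (w : W), X.sl w < n → X.LamT M (X.sl w) 0 (X.D.t w) ∧
    (X.Ge (M + 1) w → X.LamT M (X.sl w) (-1) (X.D.t w))

/-- (b) for all triples with fewer than `n` syllables -/
def SB (n : ℕ) : Prop :=
  ∀ (M : ℕ) (x g y : W), X.Adm x g y → X.nn x g y < n →
    X.LamT M (X.nn x g y) ((M : ℤ) - X.α g - X.eps M x g y) (X.B x g y)

/-- (N): the sum of the span of the `T_w`, `a'(w) ≤ M`, and of `I_M^(≤ n)` is direct. -/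
def NN (M n : ℕ) : Prop := ∀ Z ∈ X.Idl M n, (∀ w, X.D.t.repr Z w ≠ 0 → ¬ X.Ge (M + 1) w) → Z = 0

end AC

end Pool.Agent.Helper45.AM
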