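import Pool.Agent.Helper15.RA.Stmt

/-!
# Project AM (MP_cc6379_al): the asymptotic ring `J` for amalgams of Coxeter groups.
The definitions used in the statement (the setting of the problem is in `Pool.Agent.Helper15.RA.Stmt`).
-/

set_option autoImplicit false

open LaurentPolynomial Pool.Agent.Helper15.RA

noncomputable section

namespace Pool.Agent.Helper45.AM

variable {S W : Type} [Group W] {M : CoxeterMatrix S}

/-- The Coxeter matrix of the parabolic subgroup `W_P`, `P ⊆ S`. -/
def subM (M : CoxeterMatrix S) (P : Set S) : CoxeterMatrix P where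
  M := M.M.submatrix Subtype.val Subtype.val
  isSymm := M.isSymm.submatrix _
  diagonal i := M.diagonal i.1
  off_diagonal i j hij := M.off_diagonal i.1 j.1 fun h => hij (Subtype.ext h)

theorem liftP (cs : CoxeterSystem M W) (P : Set S) :
    (subM M P).IsLiftable (fun i : P => cs.simple i.1) :=
  fun i j => cs.simple_mul_simple_pow i.1 j.1

/-- The homomorphism from the Coxeter group of `P` to `W` (its image is the parabolic subgroup `W_P`). -/
def iotaP (cs : CoxeterSystem M W) (P : Set S) : (subM M P).Group →* W :=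
  (subM M P).toCoxeterSystem.lift ⟨fun i => cs.simple i.1, liftP cs P⟩

open Classical in
/-- (U): every basis element `t_g` of `J` is a `ℤ`-linear combination of products `t_x t_y`, i.e. `J J = J`. -/
def HasU (h : W → W → W →₀ ℤ[T;T⁻¹]) (a : W → ℕ) : Prop :=
  ∀ g : W, ∃ lam : W × W →₀ ℤ, ∀ z, (lam.sum fun p m => m * gam h a p.1 p.2 z) = if z = g then 1 else 0

/-- `(W, L)` satisfies (B), P1, P4, P8 and (U). -/
def GoodSysU (cs : CoxeterSystem M W) (L : W → ℕ) : Prop :=
  ∀ (H : Type) [Ring H] [Algebra ℤ[T;T⁻¹] H] (D : Hecke cs L H), D.Bdd ∧ ∃ h a, Good D h a ∧ HasU h a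

end Pool.Agent.Helper45.AM
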